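import Pool.Agent.Helper8.VS.Tri

/-!
The influence on the planted triangles of a function of three messages, each about one of the
three bipartite parts.
-/

set_option autoImplicit false
set_option linter.unusedSectionVars false

open Finset
open scoped BigOperators

namespace Pool.Agent.Helper8.VS

/-- Weights between the first and the second, or between the second and the third class. -/
abbrev Cx (m Q : ℕ) := Fin m × Fin m → Fin Q

/-- Weights between the third and the first class. -/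
abbrev Cz (m Q : ℕ) := Fin m × Fin m → Fin (2 * Q)

variable {m Q : ℕ}

/-- Average over the base distribution with three planted values. -/
noncomputable def gT (G : Cx m Q → Cx m Q → Cz m Q → ℝ) (i j k : Fin m) (a b : Fin Q)
    (c : Fin (2 * Q)) : ℝ :=
  𝔼 X, 𝔼 Y, 𝔼 Z, G (Function.update X (i, j) a) (Function.update Y (j, k) b)
    (Function.update Z (k, i) c)

/-- Difference of the averages under the two planted distributions. -/
noncomputable def dT (G : Cx m Q → Cx m Q → Cz m Q → ℝ) (i j k : Fin m) : ℝ :=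
  𝔼 a, 𝔼 b, (gT G i j k a b (add0 a b) - gT G i j k a b (add1 a b))

section
variable {A1 A2 A3 : Type} [Fintype A1] [Fintype A2] [Fintype A3]
  [DecidableEq A1] [DecidableEq A2] [DecidableEq A3]

/-- Trilinear form. -/
noncomputable def tri (F : A1 → A2 → A3 → ℝ) (p : A1 → ℝ) (q : A2 → ℝ) (r : A3 → ℝ) : ℝ :=
  ∑ l1, p l1 * ∑ l2, q l2 * ∑ l3, r l3 * F l1 l2 l3

theorem tri_bound (F : A1 → A2 → A3 → ℝ) (hF : ∀ l1 l2 l3, |F l1 l2 l3| ≤ 1) (p : A1 → ℝ)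
    (q : A2 → ℝ) (r : A3 → ℝ) :
    |tri F p q r| ≤ (∑ l, |p l|) * (∑ l, |q l|) * ∑ l, |r l| := by
  have h3 : ∀ l1 l2, |∑ l3, r l3 * F l1 l2 l3| ≤ ∑ l, |r l| := fun l1 l2 => by
    refine (Finset.abs_sum_le_sum_abs _ _).trans (Finset.sum_le_sum fun l _ => ?_)
    rw [abs_mul]
    exact mul_le_of_le_one_right (abs_nonneg _) (hF _ _ _)
  have h2 : ∀ l1, |∑ l2, q l2 * ∑ l3, r l3 * F l1 l2 l3| ≤ (∑ l, |q l|) * ∑ l, |r l| :=
    fun l1 => by
    refine (Finset.abs_sum_le_sum_abs _ _).trans ?_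
    rw [Finset.sum_mul]
    refine Finset.sum_le_sum fun l _ => ?_
    rw [abs_mul]
    exact mul_le_mul_of_nonneg_left (h3 _ _) (abs_nonneg _)
  unfold tri
  refine (Finset.abs_sum_le_sum_abs _ _).trans ?_
  rw [mul_assoc, Finset.sum_mul]
  refine Finset.sum_le_sum fun l _ => ?_
  rw [abs_mul]
  exact mul_le_mul_of_nonneg_left (h2 _) (abs_nonneg _)

theorem tri_split (F : A1 → A2 → A3 → ℝ) (p p' : A1 → ℝ) (q q' : A2 → ℝ) (r r' : A3 → ℝ) :
    tri F p' q' r' = tri F (fun l => p' l - p l) (fun l => q' l - q l) (fun l => r' l - r l) +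
      tri F (fun l => p' l - p l) (fun l => q' l - q l) r + tri F p' q r' +
      tri F p (fun l => q' l - q l) r' := by
  unfold tri
  simp only [sub_mul, mul_sub, Finset.sum_sub_distrib]
  ring

theorem tri_gT (M1 : Cx m Q → A1) (M2 : Cx m Q → A2) (M3 : Cz m Q → A3)
    (F : A1 → A2 → A3 → ℝ) (i j k : Fin m) (a b : Fin Q) (c : Fin (2 * Q)) :
    gT (fun X Y Z => F (M1 X) (M2 Y) (M3 Z)) i j k a b c =
      tri F (prc M1 (i, j) a) (prc M2 (j, k) b) (prc M3 (k, i) c) := by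
  unfold gT tri
  have h3 : ∀ (l1 : A1) (l2 : A2), 𝔼 Z, F l1 l2 (M3 (Function.update Z (k, i) c)) =
      ∑ l3, prc M3 (k, i) c l3 * F l1 l2 l3 := fun l1 l2 =>
    expect_update_apply M3 (k, i) c (fun l3 => F l1 l2 l3)
  simp only [h3]
  have h2 : ∀ (l1 : A1), 𝔼 Y, ∑ l3, prc M3 (k, i) c l3 *
      F l1 (M2 (Function.update Y (j, k) b)) l3 =
      ∑ l2, prc M2 (j, k) b l2 * ∑ l3, prc M3 (k, i) c l3 * F l1 l2 l3 := fun l1 =>
    expect_update_apply M2 (j, k) b (fun l2 => ∑ l3, prc M3 (k, i) c l3 * F l1 l2 l3)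
  simp only [h2]
  exact expect_update_apply M1 (i, j) a
    (fun l1 => ∑ l2, prc M2 (j, k) b l2 * ∑ l3, prc M3 (k, i) c l3 * F l1 l2 l3)

theorem sum_abs_pr {E Ω A : Type} [Fintype E] [DecidableEq E] [Fintype Ω] [Nonempty Ω]
    [Fintype A] [DecidableEq A] (M : (E → Ω) → A) : ∑ l, |pr M l| = 1 := by
  simp only [abs_of_nonneg (pr_nonneg M _), sum_pr]

theorem sum_abs_prc {E Ω A : Type} [Fintype E] [DecidableEq E] [Fintype Ω] [Nonempty Ω]
    [Fintype A] [DecidableEq A] (M : (E → Ω) → A) (e : E) (a : Ω) :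
    ∑ l, |prc M e a l| = 1 := by
  simp only [abs_of_nonneg (prc_nonneg M _ _ _), sum_prc]

/-- Influence on one triangle. -/
theorem dT_le (hQ : 0 < Q) (M1 : Cx m Q → A1) (M2 : Cx m Q → A2) (M3 : Cz m Q → A3)
    (F : A1 → A2 → A3 → ℝ) (hF : ∀ l1 l2 l3, |F l1 l2 l3| ≤ 1) (i j k : Fin m) :
    |dT (fun X Y Z => F (M1 X) (M2 Y) (M3 Z)) i j k| ≤
      (𝔼 a, 𝔼 b, dl M1 (i, j) a * dl M2 (j, k) b * dl M3 (k, i) (add0 a b)) +
      (𝔼 a, 𝔼 b, dl M1 (i, j) a * dl M2 (j, k) b * dl M3 (k, i) (add1 a b)) + 6 / Q := by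
  have hQ' : (0 : ℝ) < Q := by exact_mod_cast hQ
  have : Nonempty (Fin Q) := ⟨⟨0, hQ⟩⟩
  have : Nonempty (Fin (2 * Q)) := ⟨⟨0, by omega⟩⟩
  set H : Fin Q → Fin Q → Fin (2 * Q) → ℝ := fun a b c =>
    tri F (fun l => prc M1 (i, j) a l - pr M1 l) (fun l => prc M2 (j, k) b l - pr M2 l)
      (fun l => prc M3 (k, i) c l - pr M3 l) with hH
  set N : Fin Q → Fin Q → ℝ := fun a b =>
    tri F (fun l => prc M1 (i, j) a l - pr M1 l) (fun l => prc M2 (j, k) b l - pr M2 l)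
      (pr M3) with hN
  set U : Fin Q → Fin (2 * Q) → ℝ := fun a c =>
    tri F (prc M1 (i, j) a) (pr M2) (prc M3 (k, i) c) with hU
  set V : Fin Q → Fin (2 * Q) → ℝ := fun b c =>
    tri F (pr M1) (fun l => prc M2 (j, k) b l - pr M2 l) (prc M3 (k, i) c) with hV
  have hg : ∀ a b c, gT (fun X Y Z => F (M1 X) (M2 Y) (M3 Z)) i j k a b c =
      H a b c + N a b + U a c + V b c := by
    intro a b c
    rw [tri_gT, tri_split F (pr M1) _ (pr M2) _ (pr M3) _]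
  have hU1 : ∀ a c, |U a c| ≤ 1 := fun a c => by
    refine (tri_bound F hF _ _ _).trans (le_of_eq ?_)
    rw [sum_abs_prc, sum_abs_pr, sum_abs_prc]; norm_num
  have hV1 : ∀ b c, |V b c| ≤ 2 := fun b c => by
    refine (tri_bound F hF _ _ _).trans ?_
    rw [sum_abs_pr, sum_abs_prc, one_mul, mul_one]
    calc ∑ l, |prc M2 (j, k) b l - pr M2 l| ≤ ∑ l, (|prc M2 (j, k) b l| + |pr M2 l|) :=
          Finset.sum_le_sum fun l _ => abs_sub _ _
      _ = 2 := by rw [Finset.sum_add_distrib, sum_abs_prc, sum_abs_pr]; norm_num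
  have hH1 : ∀ a b c, |H a b c| ≤ dl M1 (i, j) a * dl M2 (j, k) b * dl M3 (k, i) c :=
    fun a b c => tri_bound F hF _ _ _
  have e : dT (fun X Y Z => F (M1 X) (M2 Y) (M3 Z)) i j k =
      (𝔼 a, 𝔼 b, H a b (add0 a b)) - (𝔼 a, 𝔼 b, H a b (add1 a b)) +
      (𝔼 a, 𝔼 b, (U a (add0 a b) - U a (add1 a b))) +
      (𝔼 a, 𝔼 b, (V b (add0 a b) - V b (add1 a b))) := by
    unfold dT
    simp only [hg, ← Finset.expect_add_distrib, ← Finset.expect_sub_distrib]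
    refine Finset.expect_congr rfl fun a _ => Finset.expect_congr rfl fun b _ => ?_
    ring
  have h1 : |𝔼 a, 𝔼 b, H a b (add0 a b)| ≤
      𝔼 a, 𝔼 b, dl M1 (i, j) a * dl M2 (j, k) b * dl M3 (k, i) (add0 a b) :=
    (Finset.abs_expect_le _ _).trans (Finset.expect_le_expect fun a _ =>
      (Finset.abs_expect_le _ _).trans (Finset.expect_le_expect fun b _ => hH1 _ _ _))
  have h2 : |𝔼 a, 𝔼 b, H a b (add1 a b)| ≤
      𝔼 a, 𝔼 b, dl M1 (i, j) a * dl M2 (j, k) b * dl M3 (k, i) (add1 a b) :=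
    (Finset.abs_expect_le _ _).trans (Finset.expect_le_expect fun a _ =>
      (Finset.abs_expect_le _ _).trans (Finset.expect_le_expect fun b _ => hH1 _ _ _))
  have h3 := shift_b hQ U 1 hU1
  have h4 := shift_a hQ V 2 hV1
  rw [e]
  have h5 : (6 : ℝ) / Q = 2 * 1 / Q + 2 * 2 / Q := by field_simp; norm_num
  rw [h5]
  refine (abs_add_le _ _).trans ?_
  refine (add_le_add (abs_add_le _ _) le_rfl).trans ?_
  have h6 := abs_sub (𝔼 a, 𝔼 b, H a b (add0 a b)) (𝔼 a, 𝔼 b, H a b (add1 a b))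
  linarith

theorem plant_le (hQ : 0 < Q) (ad : Fin Q → Fin Q → Fin (2 * Q))
    (had : ∀ a, Function.Injective (ad a)) (f1 f2 : Fin Q → ℝ) (f3 : Fin (2 * Q) → ℝ) :
    𝔼 a, 𝔼 b, f1 a * f2 b * f3 (ad a b) ≤
      √2 * (√(𝔼 a, f1 a ^ 2) * √(𝔼 b, f2 b ^ 2) * √(𝔼 c, f3 c ^ 2)) := by
  have h := plant_sq hQ ad had f1 f2 f3
  have h1 : 0 ≤ 𝔼 a, f1 a ^ 2 := Finset.expect_nonneg fun _ _ => sq_nonneg _
  have h2 : 0 ≤ 𝔼 a, f2 a ^ 2 := Finset.expect_nonneg fun _ _ => sq_nonneg _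
  rw [← Real.sqrt_mul h1, ← Real.sqrt_mul (mul_nonneg h1 h2), ← Real.sqrt_mul (by norm_num)]
  exact Real.le_sqrt_of_sq_le h

/-- Total influence of a function of three messages. -/
theorem sketch_total (hQ : 0 < Q) (M1 : Cx m Q → A1) (M2 : Cx m Q → A2) (M3 : Cz m Q → A3)
    (F : A1 → A2 → A3 → ℝ) (hF : ∀ l1 l2 l3, |F l1 l2 l3| ≤ 1) (B : ℕ)
    (h1 : Fintype.card A1 ≤ 2 ^ B) (h2 : Fintype.card A2 ≤ 2 ^ B)
    (h3 : Fintype.card A3 ≤ 2 ^ B) :
    ∑ i, ∑ j, ∑ k, |dT (fun X Y Z => F (M1 X) (M2 Y) (M3 Z)) i j k| ≤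
      14 * √((B : ℝ) ^ 3) + 6 * (m : ℝ) ^ 3 / Q := by
  have hQ' : (0 : ℝ) < Q := by exact_mod_cast hQ
  have : Nonempty (Fin Q) := ⟨⟨0, hQ⟩⟩
  have : Nonempty (Fin (2 * Q)) := ⟨⟨0, by omega⟩⟩
  set W1 : Fin m → Fin m → ℝ := fun i j => √(𝔼 a, dl M1 (i, j) a ^ 2) with hW1
  set W2 : Fin m → Fin m → ℝ := fun j k => √(𝔼 a, dl M2 (j, k) a ^ 2) with hW2
  set W3 : Fin m → Fin m → ℝ := fun k i => √(𝔼 a, dl M3 (k, i) a ^ 2) with hW3
  have hlog : ∀ N : ℕ, N ≤ 2 ^ B → 4 * Real.log N ≤ 4 * (B * Real.log 2) := by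
    intro N hN
    rcases Nat.eq_zero_or_pos N with h0 | h0
    · subst h0
      simp only [Nat.cast_zero, Real.log_zero, mul_zero]
      have := Real.log_pos (by norm_num : (1 : ℝ) < 2)
      positivity
    · have hN' : (N : ℝ) ≤ 2 ^ B := by exact_mod_cast hN
      have hl := Real.log_le_log (by exact_mod_cast h0) hN'
      rw [Real.log_pow] at hl
      linarith
  have sW : ∀ {Ω A : Type} [Fintype Ω] [Nonempty Ω] [Fintype A] [DecidableEq A]
      (M : (Fin m × Fin m → Ω) → A), Fintype.card A ≤ 2 ^ B →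
      ∑ i, ∑ j, √(𝔼 a, dl M (i, j) a ^ 2) ^ 2 ≤ 4 * (B * Real.log 2) := by
    intro Ω A _ _ _ _ M hM
    have e : ∀ i j, √(𝔼 a, dl M (i, j) a ^ 2) ^ 2 = 𝔼 a, dl M (i, j) a ^ 2 := fun i j =>
      Real.sq_sqrt (Finset.expect_nonneg fun _ _ => sq_nonneg _)
    simp only [e]
    have h := info M
    rw [Fintype.sum_prod_type] at h
    exact h.trans (hlog _ hM)
  have hone : ∀ i j k, |dT (fun X Y Z => F (M1 X) (M2 Y) (M3 Z)) i j k| ≤
      2 * √2 * (W1 i j * W2 j k * W3 k i) + 6 / Q := by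
    intro i j k
    have ha := plant_le hQ add0 add0_inj (dl M1 (i, j)) (dl M2 (j, k)) (dl M3 (k, i))
    have hb := plant_le hQ add1 add1_inj (dl M1 (i, j)) (dl M2 (j, k)) (dl M3 (k, i))
    have hd := dT_le hQ M1 M2 M3 F hF i j k
    simp only [hW1, hW2, hW3]
    linarith
  have hs1 := sW M1 h1
  have hs2 := sW M2 h2
  have hs3 := sW M3 h3
  have htri := tri_sq W1 W2 W3
  have hlog2 := Real.log_two_lt_d9
  have hlog2' : 0 < Real.log 2 := Real.log_pos one_lt_two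
  have hB : (0 : ℝ) ≤ B := Nat.cast_nonneg B
  have hc : (0 : ℝ) ≤ 4 * (B * Real.log 2) := by positivity
  have hS : (∑ i, ∑ j, ∑ k, W1 i j * W2 j k * W3 k i) ^ 2 ≤ (4 * (B * Real.log 2)) ^ 3 := by
    refine htri.trans ?_
    have n1 : 0 ≤ ∑ i, ∑ j, W1 i j ^ 2 :=
      Finset.sum_nonneg fun _ _ => Finset.sum_nonneg fun _ _ => sq_nonneg _
    have n2 : 0 ≤ ∑ i, ∑ j, W2 i j ^ 2 :=
      Finset.sum_nonneg fun _ _ => Finset.sum_nonneg fun _ _ => sq_nonneg _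
    have n3 : 0 ≤ ∑ i, ∑ j, W3 i j ^ 2 :=
      Finset.sum_nonneg fun _ _ => Finset.sum_nonneg fun _ _ => sq_nonneg _
    calc _ ≤ (4 * (B * Real.log 2)) * (4 * (B * Real.log 2)) * (4 * (B * Real.log 2)) :=
          mul_le_mul (mul_le_mul hs1 hs2 n2 hc) hs3 n3 (by positivity)
      _ = _ := by ring
  have hfin : 2 * √2 * (∑ i, ∑ j, ∑ k, W1 i j * W2 j k * W3 k i) ≤ 14 * √((B : ℝ) ^ 3) := by
    have n0 : 0 ≤ ∑ i, ∑ j, ∑ k, W1 i j * W2 j k * W3 k i :=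
      Finset.sum_nonneg fun _ _ => Finset.sum_nonneg fun _ _ => Finset.sum_nonneg fun _ _ =>
        mul_nonneg (mul_nonneg (Real.sqrt_nonneg _) (Real.sqrt_nonneg _)) (Real.sqrt_nonneg _)
    have e14 : 14 * √((B : ℝ) ^ 3) = √(196 * (B : ℝ) ^ 3) := by
      rw [Real.sqrt_mul (by norm_num), show (196 : ℝ) = 14 ^ 2 by norm_num,
        Real.sqrt_sq (by norm_num)]
    rw [e14]
    refine Real.le_sqrt_of_sq_le ?_
    have e2 : (2 * √2 * (∑ i, ∑ j, ∑ k, W1 i j * W2 j k * W3 k i)) ^ 2 =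
        8 * (∑ i, ∑ j, ∑ k, W1 i j * W2 j k * W3 k i) ^ 2 := by
      rw [mul_pow, mul_pow, Real.sq_sqrt (by norm_num)]; ring
    rw [e2]
    have e3 : (4 * (B * Real.log 2)) ^ 3 = 64 * Real.log 2 ^ 3 * (B : ℝ) ^ 3 := by ring
    have e4 : Real.log 2 ^ 3 ≤ (0.6931471808 : ℝ) ^ 3 :=
      pow_le_pow_left₀ hlog2'.le hlog2.le 3
    have e5 : 0 ≤ (B : ℝ) ^ 3 := by positivity
    have e6 : 64 * Real.log 2 ^ 3 * (B : ℝ) ^ 3 ≤ 24 * (B : ℝ) ^ 3 := by
      refine mul_le_mul_of_nonneg_right ?_ e5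
      refine (mul_le_mul_of_nonneg_left e4 (by norm_num)).trans ?_
      norm_num
    nlinarith
  calc ∑ i, ∑ j, ∑ k, |dT (fun X Y Z => F (M1 X) (M2 Y) (M3 Z)) i j k|
      ≤ ∑ i : Fin m, ∑ j : Fin m, ∑ k : Fin m, (2 * √2 * (W1 i j * W2 j k * W3 k i) + 6 / Q) :=
        Finset.sum_le_sum fun i _ => Finset.sum_le_sum fun j _ => Finset.sum_le_sum fun k _ =>
          hone i j k
    _ = 2 * √2 * (∑ i, ∑ j, ∑ k, W1 i j * W2 j k * W3 k i) + 6 * (m : ℝ) ^ 3 / Q := by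
        simp only [Finset.sum_add_distrib, Finset.sum_const, Finset.card_univ, Fintype.card_fin,
          ← Finset.mul_sum, nsmul_eq_mul]
        ring
    _ ≤ _ := add_le_add hfin le_rfl

end

end Pool.Agent.Helper8.VS
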