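import Pool.Agent.Helper8.VS.Defs
import Pool.Agent.Helper8.VS.Sketch

/-!
The influence of a decision tree on the planted triangles.
-/

set_option autoImplicit false
set_option linter.unusedSectionVars false

open Finset
open scoped BigOperators

namespace Pool.Agent.Helper8.VS

/-- The cells read by a tree, in the order of reading. -/
def Tree.path {n : ℕ} : {d : ℕ} → Tree n d → (Fin n → Fin n → ℤ) → List (Sym2 (Fin n))
  | _, .leaf _, _ => []
  | _, .node i j next, w => s(i, j) :: (next (w i j)).path w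

theorem Tree.path_length {n : ℕ} {d : ℕ} (t : Tree n d) (w : Fin n → Fin n → ℤ) :
    (t.path w).length ≤ d := by
  induction t with
  | leaf v => simp [Tree.path]
  | node i j next ih => simpa [Tree.path] using ih (w i j)

theorem Tree.agree {n : ℕ} {d : ℕ} (t : Tree n d) (w w' : Fin n → Fin n → ℤ)
    (e : Sym2 (Fin n)) (h : ∀ i j, s(i, j) ≠ e → w' i j = w i j) (he : e ∉ t.path w) :
    t.path w' = t.path w ∧ t.eval w' = t.eval w := by
  induction t with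
  | leaf v => exact ⟨rfl, rfl⟩
  | node i j next ih =>
    simp only [Tree.path, List.mem_cons, not_or] at he
    have hw : w' i j = w i j := h i j (fun h' => he.1 h'.symm)
    simp only [Tree.path, Tree.eval, hw]
    have := ih (w i j) he.2
    exact ⟨by rw [this.1], this.2⟩

theorem Tree.before {n : ℕ} {d : ℕ} (t : Tree n d) (w w' : Fin n → Fin n → ℤ)
    (e : Sym2 (Fin n)) (h : ∀ i j, s(i, j) ≠ e → w' i j = w i j) :
    (t.path w').takeWhile (fun x => decide (x ≠ e)) =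
      (t.path w).takeWhile (fun x => decide (x ≠ e)) ∧
    (e ∈ t.path w' ↔ e ∈ t.path w) := by
  induction t with
  | leaf v => exact ⟨rfl, Iff.rfl⟩
  | node i j next ih =>
    simp only [Tree.path]
    by_cases hc : s(i, j) = e
    · simp [hc]
    · have hw : w' i j = w i j := h i j hc
      rw [hw]
      have := ih (w i j)
      simp only [List.mem_cons, this.2, and_true]
      rw [List.takeWhile_cons, List.takeWhile_cons, this.1]

theorem mem_takeWhile_of_idxOf {α : Type} [DecidableEq α] (l : List α) (e e' : α) (h : e' ∈ l)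
    (hlt : l.idxOf e' < l.idxOf e) : e' ∈ l.takeWhile (fun x => decide (x ≠ e)) := by
  induction l with
  | nil => simp at h
  | cons c l ih =>
    by_cases hc : c = e
    · subst hc
      simp at hlt
    · rw [List.takeWhile_cons]
      simp only [ne_eq, hc, not_false_eq_true, decide_true, if_true]
      by_cases hc' : c = e'
      · subst hc'; simp
      · have h' : e' ∈ l := by
          rcases List.mem_cons.1 h with h1 | h1
          · exact absurd h1.symm hc'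
          · exact h1
        rw [List.idxOf_cons_ne _ hc', List.idxOf_cons_ne _ hc] at hlt
        exact List.mem_cons_of_mem _ (ih h' (by omega))

/-- `e` is in the list and `e'`, `e''` occur before it. -/
def Last {α : Type} [DecidableEq α] (l : List α) (e e' e'' : α) : Prop :=
  e ∈ l ∧ e' ∈ l.takeWhile (fun x => decide (x ≠ e)) ∧
    e'' ∈ l.takeWhile (fun x => decide (x ≠ e))

theorem exists_last {α : Type} [DecidableEq α] (l : List α) (e1 e2 e3 : α) (h12 : e1 ≠ e2)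
    (h13 : e1 ≠ e3) (h23 : e2 ≠ e3) (h1 : e1 ∈ l) (h2 : e2 ∈ l) (h3 : e3 ∈ l) :
    Last l e1 e2 e3 ∨ Last l e2 e1 e3 ∨ Last l e3 e1 e2 := by
  have n12 : l.idxOf e1 ≠ l.idxOf e2 := fun h => h12 ((List.idxOf_inj h1).1 h)
  have n13 : l.idxOf e1 ≠ l.idxOf e3 := fun h => h13 ((List.idxOf_inj h1).1 h)
  have n23 : l.idxOf e2 ≠ l.idxOf e3 := fun h => h23 ((List.idxOf_inj h2).1 h)
  have key : (l.idxOf e2 < l.idxOf e1 ∧ l.idxOf e3 < l.idxOf e1) ∨
      (l.idxOf e1 < l.idxOf e2 ∧ l.idxOf e3 < l.idxOf e2) ∨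
      (l.idxOf e1 < l.idxOf e3 ∧ l.idxOf e2 < l.idxOf e3) := by omega
  rcases key with ⟨a, b⟩ | ⟨a, b⟩ | ⟨a, b⟩
  · exact Or.inl ⟨h1, mem_takeWhile_of_idxOf _ _ _ h2 a, mem_takeWhile_of_idxOf _ _ _ h3 b⟩
  · exact Or.inr (Or.inl ⟨h2, mem_takeWhile_of_idxOf _ _ _ h1 a,
      mem_takeWhile_of_idxOf _ _ _ h3 b⟩)
  · exact Or.inr (Or.inr ⟨h3, mem_takeWhile_of_idxOf _ _ _ h1 a,
      mem_takeWhile_of_idxOf _ _ _ h2 b⟩)

theorem Last.mem {α : Type} [DecidableEq α] {l : List α} {e e' e'' : α} (h : Last l e e' e'') :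
    e ∈ l ∧ e' ∈ l ∧ e'' ∈ l :=
  ⟨h.1, List.takeWhile_subset _ h.2.1, List.takeWhile_subset _ h.2.2⟩


section
variable {m Q : ℕ}

theorem dT_add (G G' : Cx m Q → Cx m Q → Cz m Q → ℝ) (i j k : Fin m) :
    dT (fun X Y Z => G X Y Z + G' X Y Z) i j k = dT G i j k + dT G' i j k := by
  unfold dT gT
  simp only [Finset.expect_add_distrib, Finset.expect_sub_distrib]
  ring

theorem abs_gT_le (hQ : 0 < Q) (G : Cx m Q → Cx m Q → Cz m Q → ℝ) (K : ℝ)
    (h : ∀ X Y Z, |G X Y Z| ≤ K) (i j k : Fin m) (a b : Fin Q) (c : Fin (2 * Q)) :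
    |gT G i j k a b c| ≤ K := by
  have : Nonempty (Fin Q) := ⟨⟨0, hQ⟩⟩
  have : Nonempty (Fin (2 * Q)) := ⟨⟨0, by omega⟩⟩
  unfold gT
  refine (Finset.abs_expect_le _ _).trans (Finset.expect_le Finset.univ_nonempty fun X _ => ?_)
  refine (Finset.abs_expect_le _ _).trans (Finset.expect_le Finset.univ_nonempty fun Y _ => ?_)
  refine (Finset.abs_expect_le _ _).trans (Finset.expect_le Finset.univ_nonempty fun Z _ => ?_)
  exact h _ _ _

theorem gT_nonneg (G : Cx m Q → Cx m Q → Cz m Q → ℝ)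
    (h : ∀ X Y Z, 0 ≤ G X Y Z) (i j k : Fin m) (a b : Fin Q) (c : Fin (2 * Q)) :
    0 ≤ gT G i j k a b c :=
  Finset.expect_nonneg fun _ _ => Finset.expect_nonneg fun _ _ => Finset.expect_nonneg
    fun _ _ => h _ _ _

theorem gT_mono (G G' : Cx m Q → Cx m Q → Cz m Q → ℝ)
    (h : ∀ X Y Z, G X Y Z ≤ G' X Y Z) (i j k : Fin m) (a b : Fin Q) (c : Fin (2 * Q)) :
    gT G i j k a b c ≤ gT G' i j k a b c :=
  Finset.expect_le_expect fun _ _ => Finset.expect_le_expect fun _ _ =>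
    Finset.expect_le_expect fun _ _ => h _ _ _

/-- No dependence on the third planted weight. -/
theorem dT_no_c (G : Cx m Q → Cx m Q → Cz m Q → ℝ) (i j k : Fin m)
    (h : ∀ X Y Z c, G X Y (Function.update Z (k, i) c) = G X Y Z) : dT G i j k = 0 := by
  unfold dT gT
  simp only [h, sub_self, Finset.expect_const_zero]

/-- No dependence on the second planted weight. -/
theorem dT_no_b (hQ : 0 < Q) (G : Cx m Q → Cx m Q → Cz m Q → ℝ) (K : ℝ)
    (hK : ∀ X Y Z, |G X Y Z| ≤ K) (i j k : Fin m)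
    (h : ∀ X Y Z b, G X (Function.update Y (j, k) b) Z = G X Y Z) :
    |dT G i j k| ≤ 2 * K / Q := by
  have b0 : Fin Q := ⟨0, hQ⟩
  have e : ∀ a b c, gT G i j k a b c = gT G i j k a b0 c := by
    intro a b c
    unfold gT
    simp only [h]
  unfold dT
  simp only [fun a b => e a b (add0 a b), fun a b => e a b (add1 a b)]
  exact shift_b hQ (fun a c => gT G i j k a b0 c) K (fun a c => abs_gT_le hQ G K hK i j k a b0 c)

/-- No dependence on the first planted weight. -/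
theorem dT_no_a (hQ : 0 < Q) (G : Cx m Q → Cx m Q → Cz m Q → ℝ) (K : ℝ)
    (hK : ∀ X Y Z, |G X Y Z| ≤ K) (i j k : Fin m)
    (h : ∀ X Y Z a, G (Function.update X (i, j) a) Y Z = G X Y Z) :
    |dT G i j k| ≤ 2 * K / Q := by
  have a0 : Fin Q := ⟨0, hQ⟩
  have e : ∀ a b c, gT G i j k a b c = gT G i j k a0 b c := by
    intro a b c
    unfold gT
    simp only [h]
  unfold dT
  simp only [fun a b => e a b (add0 a b), fun a b => e a b (add1 a b)]
  exact shift_a hQ (fun b c => gT G i j k a0 b c) K (fun b c => abs_gT_le hQ G K hK i j k a0 b c)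

theorem dT_nonneg_le (G : Cx m Q → Cx m Q → Cz m Q → ℝ) (h : ∀ X Y Z, 0 ≤ G X Y Z)
    (i j k : Fin m) :
    |dT G i j k| ≤ (𝔼 a, 𝔼 b, gT G i j k a b (add0 a b)) +
      𝔼 a, 𝔼 b, gT G i j k a b (add1 a b) := by
  unfold dT
  simp only [Finset.expect_sub_distrib]
  refine (abs_sub _ _).trans (le_of_eq ?_)
  rw [abs_of_nonneg, abs_of_nonneg]
  · exact Finset.expect_nonneg fun _ _ => Finset.expect_nonneg fun _ _ => gT_nonneg G h _ _ _ _ _ _
  · exact Finset.expect_nonneg fun _ _ => Finset.expect_nonneg fun _ _ => gT_nonneg G h _ _ _ _ _ _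

/-- Planted average of a function that does not depend on the third planted weight. -/
theorem plant_c (hQ : 0 < Q) (G : Cx m Q → Cx m Q → Cz m Q → ℝ) (i j k : Fin m)
    (h : ∀ X Y Z c, G X Y (Function.update Z (k, i) c) = G X Y Z)
    (ad : Fin Q → Fin Q → Fin (2 * Q)) :
    𝔼 a, 𝔼 b, gT G i j k a b (ad a b) = 𝔼 X, 𝔼 Y, 𝔼 Z, G X Y Z := by
  have : Nonempty (Fin Q) := ⟨⟨0, hQ⟩⟩
  unfold gT
  simp only [h]
  have h1 : ∀ a : Fin Q, 𝔼 b, 𝔼 X, 𝔼 Y, 𝔼 Z, G (Function.update X (i, j) a)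
      (Function.update Y (j, k) b) Z = 𝔼 X, 𝔼 Y, 𝔼 Z, G (Function.update X (i, j) a) Y Z := by
    intro a
    rw [Finset.expect_comm]
    refine Finset.expect_congr rfl fun X _ => ?_
    exact resample' (j, k) (fun Y => 𝔼 Z, G (Function.update X (i, j) a) Y Z)
  simp only [h1]
  exact resample' (i, j) (fun X => 𝔼 Y, 𝔼 Z, G X Y Z)

theorem base_c (hQ : 0 < Q) (G : Cx m Q → Cx m Q → Cz m Q → ℝ) (e : Fin m × Fin m) :
    𝔼 c, 𝔼 X, 𝔼 Y, 𝔼 Z, G X Y (Function.update Z e c) = 𝔼 X, 𝔼 Y, 𝔼 Z, G X Y Z := by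
  have : Nonempty (Fin (2 * Q)) := ⟨⟨0, by omega⟩⟩
  rw [Finset.expect_comm]
  refine Finset.expect_congr rfl fun X _ => ?_
  rw [Finset.expect_comm]
  refine Finset.expect_congr rfl fun Y _ => ?_
  exact resample' e (fun Z => G X Y Z)

/-- Planted average of a nonnegative function that does not depend on the second planted
weight. -/
theorem plant_b (hQ : 0 < Q) (G : Cx m Q → Cx m Q → Cz m Q → ℝ) (hG : ∀ X Y Z, 0 ≤ G X Y Z)
    (i j k : Fin m) (h : ∀ X Y Z b, G X (Function.update Y (j, k) b) Z = G X Y Z)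
    (ad : Fin Q → Fin Q → Fin (2 * Q)) (had : ∀ a, Function.Injective (ad a)) :
    𝔼 a, 𝔼 b, gT G i j k a b (ad a b) ≤ 2 * 𝔼 X, 𝔼 Y, 𝔼 Z, G X Y Z := by
  have : Nonempty (Fin Q) := ⟨⟨0, hQ⟩⟩
  unfold gT
  simp only [h]
  have h1 : ∀ a : Fin Q, 𝔼 b, 𝔼 X, 𝔼 Y, 𝔼 Z, G (Function.update X (i, j) a) Y
      (Function.update Z (k, i) (ad a b)) ≤
      2 * 𝔼 X, 𝔼 Y, 𝔼 Z, G (Function.update X (i, j) a) Y Z := by
    intro a
    rw [← base_c hQ (fun X Y Z => G (Function.update X (i, j) a) Y Z) (k, i)]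
    refine expect_line hQ (ad a) (had a) (fun c => 𝔼 X, 𝔼 Y, 𝔼 Z,
      G (Function.update X (i, j) a) Y (Function.update Z (k, i) c)) ?_
    intro c
    exact Finset.expect_nonneg fun _ _ => Finset.expect_nonneg fun _ _ =>
      Finset.expect_nonneg fun _ _ => hG _ _ _
  calc _ ≤ 𝔼 a, 2 * 𝔼 X, 𝔼 Y, 𝔼 Z, G (Function.update X (i, j) a) Y Z :=
        Finset.expect_le_expect fun a _ => h1 a
    _ = _ := by
        rw [← Finset.mul_expect]
        congr 1
        exact resample' (i, j) (fun X => 𝔼 Y, 𝔼 Z, G X Y Z)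

/-- Planted average of a nonnegative function that does not depend on the first planted
weight. -/
theorem plant_a (hQ : 0 < Q) (G : Cx m Q → Cx m Q → Cz m Q → ℝ) (hG : ∀ X Y Z, 0 ≤ G X Y Z)
    (i j k : Fin m) (h : ∀ X Y Z a, G (Function.update X (i, j) a) Y Z = G X Y Z)
    (ad : Fin Q → Fin Q → Fin (2 * Q)) (had : ∀ b, Function.Injective (fun a => ad a b)) :
    𝔼 a, 𝔼 b, gT G i j k a b (ad a b) ≤ 2 * 𝔼 X, 𝔼 Y, 𝔼 Z, G X Y Z := by
  have : Nonempty (Fin Q) := ⟨⟨0, hQ⟩⟩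
  unfold gT
  simp only [h]
  rw [Finset.expect_comm]
  have h1 : ∀ b : Fin Q, 𝔼 a, 𝔼 X, 𝔼 Y, 𝔼 Z, G X (Function.update Y (j, k) b)
      (Function.update Z (k, i) (ad a b)) ≤
      2 * 𝔼 X, 𝔼 Y, 𝔼 Z, G X (Function.update Y (j, k) b) Z := by
    intro b
    rw [← base_c hQ (fun X Y Z => G X (Function.update Y (j, k) b) Z) (k, i)]
    refine expect_line hQ (fun a => ad a b) (had b) (fun c => 𝔼 X, 𝔼 Y, 𝔼 Z,
      G X (Function.update Y (j, k) b) (Function.update Z (k, i) c)) ?_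
    intro c
    exact Finset.expect_nonneg fun _ _ => Finset.expect_nonneg fun _ _ =>
      Finset.expect_nonneg fun _ _ => hG _ _ _
  calc _ ≤ 𝔼 b, 2 * 𝔼 X, 𝔼 Y, 𝔼 Z, G X (Function.update Y (j, k) b) Z :=
        Finset.expect_le_expect fun b _ => h1 b
    _ = _ := by
        rw [← Finset.mul_expect]
        congr 1
        rw [Finset.expect_comm]
        refine Finset.expect_congr rfl fun X _ => ?_
        exact resample' (j, k) (fun Y => 𝔼 Z, G X Y Z)

end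

/-- A placement of the random weights in the cells of an instance. -/
structure Place (n m Q : ℕ) where
  W : Cx m Q → Cx m Q → Cz m Q → Fin n → Fin n → ℤ
  e1 : Fin m → Fin m → Sym2 (Fin n)
  e2 : Fin m → Fin m → Sym2 (Fin n)
  e3 : Fin m → Fin m → Sym2 (Fin n)
  h1 : ∀ X Y Z i j a u v, s(u, v) ≠ e1 i j → W (Function.update X (i, j) a) Y Z u v = W X Y Z u v
  h2 : ∀ X Y Z i j a u v, s(u, v) ≠ e2 i j → W X (Function.update Y (i, j) a) Z u v = W X Y Z u v
  h3 : ∀ X Y Z i j a u v, s(u, v) ≠ e3 i j → W X Y (Function.update Z (i, j) a) u v = W X Y Z u v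
  inj1 : ∀ i j i' j', e1 i j = e1 i' j' → i = i' ∧ j = j'
  inj2 : ∀ i j i' j', e2 i j = e2 i' j' → i = i' ∧ j = j'
  inj3 : ∀ i j i' j', e3 i j = e3 i' j' → i = i' ∧ j = j'
  ne12 : ∀ i j i' j', e1 i j ≠ e2 i' j'
  ne13 : ∀ i j i' j', e1 i j ≠ e3 i' j'
  ne23 : ∀ i j i' j', e2 i j ≠ e3 i' j'

section
variable {n m Q D : ℕ}

theorem card_path (l : List (Sym2 (Fin n))) (D : ℕ) (hl : l.length ≤ D)
    (e : Fin m → Fin m → Sym2 (Fin n)) (he : ∀ i j i' j', e i j = e i' j' → i = i' ∧ j = j') :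
    ∑ i, ∑ j, (if e i j ∈ l then (1 : ℝ) else 0) ^ 2 ≤ D := by
  classical
  have e1 : ∑ i, ∑ j, (if e i j ∈ l then (1 : ℝ) else 0) ^ 2 =
      ((Finset.univ.filter fun p : Fin m × Fin m => e p.1 p.2 ∈ l).card : ℝ) := by
    rw [Finset.card_filter, Fintype.sum_prod_type]
    push_cast
    refine Finset.sum_congr rfl fun i _ => Finset.sum_congr rfl fun j _ => ?_
    split <;> simp
  rw [e1]
  have h2 : (Finset.univ.filter fun p : Fin m × Fin m => e p.1 p.2 ∈ l).card ≤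
      l.toFinset.card := by
    refine Finset.card_le_card_of_injOn (fun p => e p.1 p.2) ?_ ?_
    · intro p hp
      simpa using hp
    · intro p _ q _ h
      have := he _ _ _ _ h
      exact Prod.ext this.1 this.2
  have h3 := List.toFinset_card_le l
  exact_mod_cast h2.trans (h3.trans hl)

/-- Indicator. -/
noncomputable def ind (p : Prop) : ℝ := open Classical in if p then 1 else 0

theorem ind_nonneg (p : Prop) : 0 ≤ ind p := by unfold ind; split <;> norm_num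
theorem ind_le_one (p : Prop) : ind p ≤ 1 := by unfold ind; split <;> norm_num
theorem ind_true {p : Prop} (h : p) : ind p = 1 := by unfold ind; rw [if_pos h]
theorem ind_false {p : Prop} (h : ¬ p) : ind p = 0 := by unfold ind; rw [if_neg h]

theorem Tree.inv (t : Tree n D) (w w' : Fin n → Fin n → ℤ) (e : Sym2 (Fin n))
    (h : ∀ i j, s(i, j) ≠ e → w' i j = w i j) (R : List (Sym2 (Fin n)) → Prop) :
    t.eval w' * ind (e ∉ t.path w' ∧ R (t.path w')) =
      t.eval w * ind (e ∉ t.path w ∧ R (t.path w)) := by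
  by_cases he : e ∈ t.path w
  · have he' : e ∈ t.path w' := (t.before w w' e h).2.2 he
    rw [ind_false (fun h => h.1 he'), ind_false (fun h => h.1 he), mul_zero, mul_zero]
  · obtain ⟨h1, h2⟩ := t.agree w w' e h he
    rw [h1, h2]

theorem Tree.inv_last (t : Tree n D) (w w' : Fin n → Fin n → ℤ) (e e' e'' : Sym2 (Fin n))
    (h : ∀ i j, s(i, j) ≠ e → w' i j = w i j) :
    ind (Last (t.path w') e e' e'') = ind (Last (t.path w) e e' e'') := by
  obtain ⟨h1, h2⟩ := t.before w w' e h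
  unfold Last
  rw [h1, h2]

theorem tree_one (hQ : 0 < Q) (P : Place n m Q) (t : Tree n D)
    (h01 : ∀ X Y Z, 0 ≤ t.eval (P.W X Y Z) ∧ t.eval (P.W X Y Z) ≤ 1) (i j k : Fin m) :
    |dT (fun X Y Z => t.eval (P.W X Y Z)) i j k| ≤
      12 * (𝔼 X, 𝔼 Y, 𝔼 Z, ind (P.e1 i j ∈ t.path (P.W X Y Z) ∧ P.e2 j k ∈ t.path (P.W X Y Z) ∧
        P.e3 k i ∈ t.path (P.W X Y Z))) + 4 / Q := by
  classical
  set E1 := P.e1 i j with hE1
  set E2 := P.e2 j k with hE2
  set E3 := P.e3 k i with hE3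
  set G3 : Cx m Q → Cx m Q → Cz m Q → ℝ := fun X Y Z =>
    t.eval (P.W X Y Z) * ind (E3 ∉ t.path (P.W X Y Z) ∧ True) with hG3
  set G2 : Cx m Q → Cx m Q → Cz m Q → ℝ := fun X Y Z =>
    t.eval (P.W X Y Z) * ind (E2 ∉ t.path (P.W X Y Z) ∧ E3 ∈ t.path (P.W X Y Z)) with hG2
  set G1 : Cx m Q → Cx m Q → Cz m Q → ℝ := fun X Y Z =>
    t.eval (P.W X Y Z) * ind (E1 ∉ t.path (P.W X Y Z) ∧
      (E2 ∈ t.path (P.W X Y Z) ∧ E3 ∈ t.path (P.W X Y Z))) with hG1
  set G0 : Cx m Q → Cx m Q → Cz m Q → ℝ := fun X Y Z =>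
    t.eval (P.W X Y Z) * ind (E1 ∈ t.path (P.W X Y Z) ∧
      (E2 ∈ t.path (P.W X Y Z) ∧ E3 ∈ t.path (P.W X Y Z))) with hG0
  have hsplit : (fun X Y Z => t.eval (P.W X Y Z)) =
      fun X Y Z => (G3 X Y Z + G2 X Y Z) + (G1 X Y Z + G0 X Y Z) := by
    funext X Y Z
    simp only [hG3, hG2, hG1, hG0, ind]
    by_cases c3 : E3 ∈ t.path (P.W X Y Z) <;> by_cases c2 : E2 ∈ t.path (P.W X Y Z) <;>
      by_cases c1 : E1 ∈ t.path (P.W X Y Z) <;> simp [c1, c2, c3]
  have b : ∀ (p : Prop) X Y Z, |t.eval (P.W X Y Z) * ind p| ≤ 1 := by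
    intro p X Y Z
    rw [abs_mul, abs_of_nonneg (h01 X Y Z).1, abs_of_nonneg (ind_nonneg p)]
    exact mul_le_one₀ (h01 X Y Z).2 (ind_nonneg _) (ind_le_one _)
  have d3 : dT G3 i j k = 0 := dT_no_c _ _ _ _ fun X Y Z c =>
    t.inv _ _ E3 (P.h3 X Y Z k i c) (fun _ => True)
  have d2 : |dT G2 i j k| ≤ 2 * 1 / Q := dT_no_b hQ _ 1 (fun X Y Z => b _ X Y Z) _ _ _
    fun X Y Z c => t.inv _ _ E2 (P.h2 X Y Z j k c) (fun l => E3 ∈ l)
  have d1 : |dT G1 i j k| ≤ 2 * 1 / Q := dT_no_a hQ _ 1 (fun X Y Z => b _ X Y Z) _ _ _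
    fun X Y Z c => t.inv _ _ E1 (P.h1 X Y Z i j c) (fun l => E2 ∈ l ∧ E3 ∈ l)
  set all : ℝ := 𝔼 X, 𝔼 Y, 𝔼 Z, ind (E1 ∈ t.path (P.W X Y Z) ∧ E2 ∈ t.path (P.W X Y Z) ∧
        E3 ∈ t.path (P.W X Y Z)) with hall
  set L1 : Cx m Q → Cx m Q → Cz m Q → ℝ := fun X Y Z =>
    ind (Last (t.path (P.W X Y Z)) E1 E2 E3) with hL1
  set L2 : Cx m Q → Cx m Q → Cz m Q → ℝ := fun X Y Z =>
    ind (Last (t.path (P.W X Y Z)) E2 E1 E3) with hL2
  set L3 : Cx m Q → Cx m Q → Cz m Q → ℝ := fun X Y Z =>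
    ind (Last (t.path (P.W X Y Z)) E3 E1 E2) with hL3
  have mono : ∀ p q : Prop, (p → q) → ind p ≤ ind q := by
    intro p q h
    by_cases hp : p
    · rw [ind_true hp, ind_true (h hp)]
    · rw [ind_false hp]; exact ind_nonneg _
  have all1 : 𝔼 X, 𝔼 Y, 𝔼 Z, L1 X Y Z ≤ all :=
    Finset.expect_le_expect fun X _ => Finset.expect_le_expect fun Y _ =>
      Finset.expect_le_expect fun Z _ => mono _ _ fun h => ⟨h.mem.1, h.mem.2.1, h.mem.2.2⟩
  have all2 : 𝔼 X, 𝔼 Y, 𝔼 Z, L2 X Y Z ≤ all :=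
    Finset.expect_le_expect fun X _ => Finset.expect_le_expect fun Y _ =>
      Finset.expect_le_expect fun Z _ => mono _ _ fun h => ⟨h.mem.2.1, h.mem.1, h.mem.2.2⟩
  have all3 : 𝔼 X, 𝔼 Y, 𝔼 Z, L3 X Y Z ≤ all :=
    Finset.expect_le_expect fun X _ => Finset.expect_le_expect fun Y _ =>
      Finset.expect_le_expect fun Z _ => mono _ _ fun h => ⟨h.mem.2.1, h.mem.2.2, h.mem.1⟩
  have all0 : 0 ≤ all := Finset.expect_nonneg fun _ _ => Finset.expect_nonneg fun _ _ =>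
    Finset.expect_nonneg fun _ _ => ind_nonneg _
  have hG0n : ∀ X Y Z, 0 ≤ G0 X Y Z := fun X Y Z => mul_nonneg (h01 X Y Z).1 (ind_nonneg _)
  have hG0le : ∀ X Y Z, G0 X Y Z ≤ L1 X Y Z + L2 X Y Z + L3 X Y Z := by
    intro X Y Z
    have n1 := ind_nonneg (Last (t.path (P.W X Y Z)) E1 E2 E3)
    have n2 := ind_nonneg (Last (t.path (P.W X Y Z)) E2 E1 E3)
    have n3 := ind_nonneg (Last (t.path (P.W X Y Z)) E3 E1 E2)
    simp only [hG0, hL1, hL2, hL3]
    by_cases h : E1 ∈ t.path (P.W X Y Z) ∧ (E2 ∈ t.path (P.W X Y Z) ∧ E3 ∈ t.path (P.W X Y Z))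
    · rw [ind_true h, mul_one]
      have h1 := (h01 X Y Z).2
      rcases exists_last _ E1 E2 E3 (P.ne12 _ _ _ _) (P.ne13 _ _ _ _) (P.ne23 _ _ _ _) h.1 h.2.1
        h.2.2 with hl | hl | hl
      · rw [ind_true hl]; linarith
      · rw [ind_true hl]; linarith
      · rw [ind_true hl]; linarith
    · rw [ind_false h, mul_zero]; linarith
  have key : ∀ ad : Fin Q → Fin Q → Fin (2 * Q), (∀ a, Function.Injective (ad a)) →
      (∀ b, Function.Injective (fun a => ad a b)) →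
      𝔼 a, 𝔼 b, gT G0 i j k a b (ad a b) ≤ 6 * all := by
    intro ad had had'
    have p1 := plant_a hQ L1 (fun _ _ _ => ind_nonneg _) i j k
      (fun X Y Z c => t.inv_last _ _ E1 E2 E3 (P.h1 X Y Z i j c)) ad had'
    have p2 := plant_b hQ L2 (fun _ _ _ => ind_nonneg _) i j k
      (fun X Y Z c => t.inv_last _ _ E2 E1 E3 (P.h2 X Y Z j k c)) ad had
    have p3 := plant_c hQ L3 i j k
      (fun X Y Z c => t.inv_last _ _ E3 E1 E2 (P.h3 X Y Z k i c)) ad
    have le : 𝔼 a, 𝔼 b, gT G0 i j k a b (ad a b) ≤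
        (𝔼 a, 𝔼 b, gT L1 i j k a b (ad a b)) + (𝔼 a, 𝔼 b, gT L2 i j k a b (ad a b)) +
        (𝔼 a, 𝔼 b, gT L3 i j k a b (ad a b)) := by
      have e : ∀ a b, gT (fun X Y Z => L1 X Y Z + L2 X Y Z + L3 X Y Z) i j k a b (ad a b) =
          gT L1 i j k a b (ad a b) + gT L2 i j k a b (ad a b) + gT L3 i j k a b (ad a b) := by
        intro a b
        unfold gT
        simp only [Finset.expect_add_distrib]
      calc _ ≤ 𝔼 a, 𝔼 b, gT (fun X Y Z => L1 X Y Z + L2 X Y Z + L3 X Y Z) i j k a b (ad a b) :=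
            Finset.expect_le_expect fun a _ => Finset.expect_le_expect fun b _ =>
              gT_mono _ _ hG0le _ _ _ _ _ _
        _ = _ := by simp only [e, Finset.expect_add_distrib]
    rw [p3] at le
    linarith
  have d0 : |dT G0 i j k| ≤ 12 * all := by
    have h := dT_nonneg_le G0 hG0n i j k
    have k0 := key add0 add0_inj (fun b a a' h => add0_inj b (by
      simpa only [add0_comm] using h))
    have k1 := key add1 add1_inj (fun b a a' h => add1_inj b (by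
      simpa only [add1_comm] using h))
    linarith
  rw [hsplit, dT_add, dT_add, dT_add, d3, zero_add]
  have h4 : (4 : ℝ) / Q = 2 * 1 / Q + 2 * 1 / Q := by ring
  rw [h4]
  refine (abs_add_le _ _).trans ?_
  have := abs_add_le (dT G1 i j k) (dT G0 i j k)
  linarith

theorem tree_total (hQ : 0 < Q) (P : Place n m Q) (t : Tree n D)
    (h01 : ∀ X Y Z, 0 ≤ t.eval (P.W X Y Z) ∧ t.eval (P.W X Y Z) ≤ 1) :
    ∑ i, ∑ j, ∑ k, |dT (fun X Y Z => t.eval (P.W X Y Z)) i j k| ≤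
      12 * √((D : ℝ) ^ 3) + 4 * (m : ℝ) ^ 3 / Q := by
  classical
  have : Nonempty (Fin Q) := ⟨⟨0, hQ⟩⟩
  have : Nonempty (Fin (2 * Q)) := ⟨⟨0, by omega⟩⟩
  set A : Fin m → Fin m → Fin m → Cx m Q → Cx m Q → Cz m Q → ℝ := fun i j k X Y Z =>
    ind (P.e1 i j ∈ t.path (P.W X Y Z) ∧ P.e2 j k ∈ t.path (P.W X Y Z) ∧
        P.e3 k i ∈ t.path (P.W X Y Z)) with hA
  have hpt : ∀ X Y Z, ∑ i, ∑ j, ∑ k, A i j k X Y Z ≤ √((D : ℝ) ^ 3) := by
    intro X Y Z
    have hl := t.path_length (P.W X Y Z)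
    set l := t.path (P.W X Y Z) with hl'
    have c1 := card_path l D hl P.e1 P.inj1
    have c2 := card_path l D hl P.e2 P.inj2
    have c3 := card_path l D hl P.e3 P.inj3
    have ht := tri_sq (fun i j => if P.e1 i j ∈ l then (1 : ℝ) else 0)
      (fun i j => if P.e2 i j ∈ l then (1 : ℝ) else 0)
      (fun i j => if P.e3 i j ∈ l then (1 : ℝ) else 0)
    have e : ∑ i, ∑ j, ∑ k, A i j k X Y Z = ∑ i, ∑ j, ∑ k,
        (if P.e1 i j ∈ l then (1 : ℝ) else 0) * (if P.e2 j k ∈ l then (1 : ℝ) else 0) *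
          (if P.e3 k i ∈ l then (1 : ℝ) else 0) := by
      refine Finset.sum_congr rfl fun i _ => Finset.sum_congr rfl fun j _ =>
        Finset.sum_congr rfl fun k _ => ?_
      simp only [hA, ind, ← hl']
      by_cases a1 : P.e1 i j ∈ l <;> by_cases a2 : P.e2 j k ∈ l <;>
        by_cases a3 : P.e3 k i ∈ l <;> simp [a1, a2, a3]
    rw [e]
    refine Real.le_sqrt_of_sq_le (ht.trans ?_)
    have n1 : (0 : ℝ) ≤ ∑ i, ∑ j, (if P.e1 i j ∈ l then (1 : ℝ) else 0) ^ 2 :=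
      Finset.sum_nonneg fun _ _ => Finset.sum_nonneg fun _ _ => sq_nonneg _
    have n2 : (0 : ℝ) ≤ ∑ i, ∑ j, (if P.e2 i j ∈ l then (1 : ℝ) else 0) ^ 2 :=
      Finset.sum_nonneg fun _ _ => Finset.sum_nonneg fun _ _ => sq_nonneg _
    have n3 : (0 : ℝ) ≤ ∑ i, ∑ j, (if P.e3 i j ∈ l then (1 : ℝ) else 0) ^ 2 :=
      Finset.sum_nonneg fun _ _ => Finset.sum_nonneg fun _ _ => sq_nonneg _
    have hD : (0 : ℝ) ≤ D := Nat.cast_nonneg D
    calc _ ≤ ((D : ℝ) * D) * D := mul_le_mul (mul_le_mul c1 c2 n2 hD) c3 n3 (by positivity)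
      _ = _ := by ring
  calc ∑ i, ∑ j, ∑ k, |dT (fun X Y Z => t.eval (P.W X Y Z)) i j k|
      ≤ ∑ i : Fin m, ∑ j : Fin m, ∑ k : Fin m, (12 * (𝔼 X, 𝔼 Y, 𝔼 Z, A i j k X Y Z) + 4 / Q) :=
        Finset.sum_le_sum fun i _ => Finset.sum_le_sum fun j _ => Finset.sum_le_sum fun k _ =>
          tree_one hQ P t h01 i j k
    _ = 12 * (∑ i, ∑ j, ∑ k, 𝔼 X, 𝔼 Y, 𝔼 Z, A i j k X Y Z) + 4 * (m : ℝ) ^ 3 / Q := by
        simp only [Finset.sum_add_distrib, Finset.sum_const, Finset.card_univ, Fintype.card_fin,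
          ← Finset.mul_sum, nsmul_eq_mul]
        ring
    _ = 12 * (𝔼 X, 𝔼 Y, 𝔼 Z, ∑ i, ∑ j, ∑ k, A i j k X Y Z) + 4 * (m : ℝ) ^ 3 / Q := by
        simp only [Finset.expect_sum_comm]
    _ ≤ _ := by
        have : 𝔼 X, 𝔼 Y, 𝔼 Z, ∑ i, ∑ j, ∑ k, A i j k X Y Z ≤ √((D : ℝ) ^ 3) :=
          Finset.expect_le Finset.univ_nonempty fun X _ =>
            Finset.expect_le Finset.univ_nonempty fun Y _ =>
              Finset.expect_le Finset.univ_nonempty fun Z _ => hpt X Y Z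
        linarith

end

end Pool.Agent.Helper8.VS
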