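import Mathlib

/-!
Resampling one coordinate of a uniform random point of a product space, and the information
inequality: a function with `N` values of independent uniform coordinates tells on average little
about a single coordinate.
-/

set_option autoImplicit false
set_option linter.unusedSectionVars false

open Finset
open scoped BigOperators

namespace Pool.Agent.Helper8.VS

section
variable {E Ω A : Type} [Fintype E] [DecidableEq E] [Fintype Ω]

/-- Resampling one coordinate. -/
theorem resample [Nonempty Ω] (e : E) (φ : (E → Ω) → Ω → ℝ) :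
    𝔼 a, 𝔼 X, φ (Function.update X e a) a = 𝔼 X, φ X (X e) := by
  have h1 : 𝔼 a, 𝔼 X, φ (Function.update X e a) a =
      𝔼 p : Ω × (E → Ω), φ (Function.update p.2 e p.1) p.1 := by
    rw [← Finset.univ_product_univ, Finset.expect_product]
  have h2 : 𝔼 X, φ X (X e) = 𝔼 p : Ω × (E → Ω), φ p.2 (p.2 e) := by
    rw [← Finset.univ_product_univ, Finset.expect_product]
    simp
  rw [h1, h2]
  have inv : Function.Involutive (fun p : Ω × (E → Ω) => (p.2 e, Function.update p.2 e p.1)) := by
    intro p
    simp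
  refine Fintype.expect_equiv inv.toPerm _ _ ?_
  intro p
  simp

theorem resample' [Nonempty Ω] (e : E) (φ : (E → Ω) → ℝ) :
    𝔼 a, 𝔼 X, φ (Function.update X e a) = 𝔼 X, φ X :=
  resample e (fun X _ => φ X)

/-- The expectation of a product of functions of different coordinates. -/
theorem expect_prod (f : E → Ω → ℝ) : 𝔼 X : E → Ω, ∏ e, f e (X e) = ∏ e, 𝔼 a, f e a := by
  classical
  rw [Fintype.expect_eq_sum_div_card]
  have h : ∀ e, 𝔼 a, f e a = (∑ a, f e a) / (Fintype.card Ω : ℝ) := fun e =>
    Fintype.expect_eq_sum_div_card _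
  simp only [h]
  rw [Finset.prod_div_distrib, Finset.prod_const, Finset.prod_univ_sum, Fintype.piFinset_univ,
    Fintype.card_fun]
  simp

variable [Fintype A] [DecidableEq A]

/-- Probability of a value. -/
noncomputable def pr (M : (E → Ω) → A) (l : A) : ℝ := 𝔼 X, if M X = l then 1 else 0

/-- Probability of a value when one coordinate is fixed. -/
noncomputable def prc (M : (E → Ω) → A) (e : E) (a : Ω) (l : A) : ℝ :=
  𝔼 X, if M (Function.update X e a) = l then 1 else 0

/-- Total variation distance (times two). -/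
noncomputable def dl (M : (E → Ω) → A) (e : E) (a : Ω) : ℝ := ∑ l, |prc M e a l - pr M l|

theorem pr_nonneg (M : (E → Ω) → A) (l : A) : 0 ≤ pr M l :=
  Finset.expect_nonneg fun X _ => by split <;> norm_num

theorem prc_nonneg (M : (E → Ω) → A) (e : E) (a : Ω) (l : A) : 0 ≤ prc M e a l :=
  Finset.expect_nonneg fun X _ => by split <;> norm_num

theorem dl_nonneg (M : (E → Ω) → A) (e : E) (a : Ω) : 0 ≤ dl M e a :=
  Finset.sum_nonneg fun _ _ => abs_nonneg _

theorem expect_apply (M : (E → Ω) → A) (f : A → ℝ) : 𝔼 X, f (M X) = ∑ l, pr M l * f l := by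
  unfold pr
  simp only [Finset.expect_mul]
  rw [← Finset.expect_sum_comm]
  refine Finset.expect_congr rfl fun X _ => ?_
  simp

theorem expect_update_apply (M : (E → Ω) → A) (e : E) (a : Ω) (f : A → ℝ) :
    𝔼 X, f (M (Function.update X e a)) = ∑ l, prc M e a l * f l := by
  unfold prc
  simp only [Finset.expect_mul]
  rw [← Finset.expect_sum_comm]
  refine Finset.expect_congr rfl fun X _ => ?_
  simp

theorem sum_pr [Nonempty Ω] (M : (E → Ω) → A) : ∑ l, pr M l = 1 := by
  have h := expect_apply M (fun _ => 1)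
  simpa using h.symm

theorem sum_prc [Nonempty Ω] (M : (E → Ω) → A) (e : E) (a : Ω) : ∑ l, prc M e a l = 1 := by
  have h := expect_update_apply M e a (fun _ => 1)
  simpa using h.symm

theorem expect_prc [Nonempty Ω] (M : (E → Ω) → A) (e : E) (l : A) : 𝔼 a, prc M e a l = pr M l := by
  unfold prc pr
  exact resample' e (fun X => if M X = l then (1 : ℝ) else 0)

theorem pr_pos (M : (E → Ω) → A) (X : E → Ω) : 0 < pr M (M X) := by
  unfold pr
  refine Finset.expect_pos' (fun Y _ => by split <;> norm_num) ⟨X, Finset.mem_univ _, ?_⟩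
  simp

theorem prc_pos (M : (E → Ω) → A) (e : E) (X : E → Ω) : 0 < prc M e (X e) (M X) := by
  unfold prc
  refine Finset.expect_pos' (fun Y _ => by split <;> norm_num) ⟨X, Finset.mem_univ _, ?_⟩
  simp

end

/-- Hellinger form of Pinsker's inequality. -/
theorem pinsker {A : Type} [Fintype A] (p q : A → ℝ) (hp : ∀ l, 0 ≤ p l) (hq : ∀ l, 0 ≤ q l)
    (hp1 : ∑ l, p l = 1) (hq1 : ∑ l, q l = 1) (hac : ∀ l, q l = 0 → p l = 0) :
    (∑ l, |p l - q l|) ^ 2 ≤ 4 * ∑ l, p l * Real.log (p l / q l) := by
  have h1 : ∀ l, 2 * p l - 2 * (√(p l) * √(q l)) ≤ p l * Real.log (p l / q l) := by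
    intro l
    rcases (hp l).eq_or_lt with h0 | h0
    · rw [← h0]; simp
    · have hq0 : 0 < q l := by
        rcases (hq l).eq_or_lt with h | h
        · exact absurd (hac l h.symm) h0.ne'
        · exact h
      have e1 : Real.log (p l / q l) = - (2 * Real.log (√(q l) / √(p l))) := by
        rw [Real.log_div h0.ne' hq0.ne', Real.log_div (Real.sqrt_pos.2 hq0).ne'
          (Real.sqrt_pos.2 h0).ne', Real.log_sqrt h0.le, Real.log_sqrt hq0.le]
        ring
      have e2 : Real.log (√(q l) / √(p l)) ≤ √(q l) / √(p l) - 1 :=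
        Real.log_le_sub_one_of_pos (div_pos (Real.sqrt_pos.2 hq0) (Real.sqrt_pos.2 h0))
      rw [e1]
      have e3 : p l * (√(q l) / √(p l)) = √(p l) * √(q l) := by
        have : p l = √(p l) * √(p l) := (Real.mul_self_sqrt h0.le).symm
        have hs := (Real.sqrt_pos.2 h0).ne'
        calc p l * (√(q l) / √(p l)) = (√(p l) * √(p l)) * (√(q l) / √(p l)) := by rw [← this]
          _ = √(p l) * √(q l) := by field_simp
      nlinarith [mul_le_mul_of_nonneg_left e2 h0.le]
  have h2 : ∑ l, (√(p l) - √(q l)) ^ 2 ≤ ∑ l, p l * Real.log (p l / q l) := by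
    have e : ∀ l, (√(p l) - √(q l)) ^ 2 = p l + q l - 2 * (√(p l) * √(q l)) := by
      intro l
      have e1 := Real.sq_sqrt (hp l)
      have e2 := Real.sq_sqrt (hq l)
      nlinarith
    calc ∑ l, (√(p l) - √(q l)) ^ 2 = ∑ l, (p l + q l - 2 * (√(p l) * √(q l))) :=
          Finset.sum_congr rfl fun l _ => e l
      _ = ∑ l, (2 * p l - 2 * (√(p l) * √(q l))) := by
          simp only [Finset.sum_sub_distrib, Finset.sum_add_distrib, ← Finset.mul_sum, hp1, hq1]
          norm_num
      _ ≤ _ := Finset.sum_le_sum fun l _ => h1 l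
  have h3 : (∑ l, |p l - q l|) ^ 2 ≤ (∑ l, (√(p l) - √(q l)) ^ 2) * ∑ l, (√(p l) + √(q l)) ^ 2 := by
    have e : ∀ l, |p l - q l| = |√(p l) - √(q l)| * (√(p l) + √(q l)) := by
      intro l
      have hn : 0 ≤ √(p l) + √(q l) := by positivity
      rw [← abs_of_nonneg hn, ← abs_mul]
      congr 1
      have e1 := Real.sq_sqrt (hp l)
      have e2 := Real.sq_sqrt (hq l)
      nlinarith
    have h := Finset.sum_mul_sq_le_sq_mul_sq Finset.univ (fun l => |√(p l) - √(q l)|)
      (fun l => √(p l) + √(q l))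
    simp only [sq_abs] at h
    simpa only [e] using h
  have h4 : ∑ l, (√(p l) + √(q l)) ^ 2 ≤ 4 := by
    calc ∑ l, (√(p l) + √(q l)) ^ 2 ≤ ∑ l, (2 * p l + 2 * q l) := by
          refine Finset.sum_le_sum fun l _ => ?_
          have e1 := Real.sq_sqrt (hp l)
          have e2 := Real.sq_sqrt (hq l)
          nlinarith [sq_nonneg (√(p l) - √(q l))]
      _ = 4 := by
          simp only [Finset.sum_add_distrib, ← Finset.mul_sum, hp1, hq1]; norm_num
  have h5 : 0 ≤ ∑ l, (√(p l) - √(q l)) ^ 2 := Finset.sum_nonneg fun _ _ => sq_nonneg _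
  calc (∑ l, |p l - q l|) ^ 2 ≤ (∑ l, (√(p l) - √(q l)) ^ 2) * ∑ l, (√(p l) + √(q l)) ^ 2 := h3
    _ ≤ (∑ l, (√(p l) - √(q l)) ^ 2) * 4 := mul_le_mul_of_nonneg_left h4 h5
    _ ≤ (∑ l, p l * Real.log (p l / q l)) * 4 := mul_le_mul_of_nonneg_right h2 (by norm_num)
    _ = _ := by ring

section
variable {E Ω A : Type} [Fintype E] [DecidableEq E] [Fintype Ω] [Nonempty Ω]
  [Fintype A] [DecidableEq A]

/-- Superadditivity of information for independent coordinates. -/
theorem info_aux (M : (E → Ω) → A) :
    𝔼 X, ∑ e, Real.log (prc M e (X e) (M X) / pr M (M X)) ≤ Real.log (Fintype.card A) := by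
  classical
  obtain ⟨X0⟩ : Nonempty (E → Ω) := inferInstance
  have hA : 0 < (Fintype.card A : ℝ) := by
    have : Nonempty A := ⟨M X0⟩
    exact_mod_cast Fintype.card_pos
  set r : E → A → Ω → ℝ := fun e l a => prc M e a l / pr M l with hr
  have hr0 : ∀ e l a, 0 ≤ r e l a := fun e l a => div_nonneg (prc_nonneg _ _ _ _) (pr_nonneg _ _)
  have h1 : ∀ X : E → Ω, ∑ e, Real.log (r e (M X) (X e)) ≤
      (∏ e, r e (M X) (X e)) / Fintype.card A - 1 + Real.log (Fintype.card A) := by
    intro X
    have hpos : ∀ e, 0 < r e (M X) (X e) := fun e => div_pos (prc_pos _ _ _) (pr_pos _ _)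
    have e1 : Real.log ((∏ e, r e (M X) (X e)) / Fintype.card A) =
        ∑ e, Real.log (r e (M X) (X e)) - Real.log (Fintype.card A) := by
      rw [Real.log_div (Finset.prod_ne_zero_iff.2 fun e _ => (hpos e).ne') hA.ne',
        Real.log_prod (fun e _ => (hpos e).ne')]
    have e2 := Real.log_le_sub_one_of_pos
      (div_pos (Finset.prod_pos fun e _ => hpos e) hA :
        0 < (∏ e, r e (M X) (X e)) / (Fintype.card A : ℝ))
    linarith
  have h2 : 𝔼 X : E → Ω, ∏ e, r e (M X) (X e) ≤ Fintype.card A := by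
    calc 𝔼 X : E → Ω, ∏ e, r e (M X) (X e) ≤ 𝔼 X : E → Ω, ∑ l, ∏ e, r e l (X e) := by
          refine Finset.expect_le_expect fun X _ => ?_
          exact Finset.single_le_sum (f := fun l => ∏ e, r e l (X e))
            (fun l _ => Finset.prod_nonneg fun e _ => hr0 e l (X e)) (Finset.mem_univ (M X))
      _ = ∑ l, ∏ e, 𝔼 a, r e l a := by
          rw [Finset.expect_sum_comm]
          refine Finset.sum_congr rfl fun l _ => ?_
          exact expect_prod (fun e a => r e l a)
      _ ≤ ∑ _l : A, 1 := by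
          refine Finset.sum_le_sum fun l _ => ?_
          refine Finset.prod_le_one (fun e _ => Finset.expect_nonneg fun a _ => hr0 e l a) ?_
          intro e _
          simp only [hr]
          rw [← Finset.expect_div, expect_prc]
          exact div_self_le_one _
      _ = Fintype.card A := by simp
  calc 𝔼 X, ∑ e, Real.log (prc M e (X e) (M X) / pr M (M X)) ≤
      𝔼 X : E → Ω, ((∏ e, r e (M X) (X e)) / Fintype.card A - 1 + Real.log (Fintype.card A)) :=
        Finset.expect_le_expect fun X _ => h1 X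
    _ = (𝔼 X : E → Ω, ∏ e, r e (M X) (X e)) / Fintype.card A - 1 +
        Real.log (Fintype.card A) := by
        rw [Finset.expect_add_distrib, Finset.expect_sub_distrib, ← Finset.expect_div]
        simp
    _ ≤ _ := by
        have : (𝔼 X : E → Ω, ∏ e, r e (M X) (X e)) / Fintype.card A ≤ 1 :=
          (div_le_one hA).2 h2
        linarith

/-- A function with `N` values of independent uniform coordinates: the sum over the coordinates of
the mean squared influence is at most `4 log N`. -/
theorem info (M : (E → Ω) → A) :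
    ∑ e, 𝔼 a, dl M e a ^ 2 ≤ 4 * Real.log (Fintype.card A) := by
  have h1 : ∀ e, 𝔼 a, dl M e a ^ 2 ≤
      4 * 𝔼 X, Real.log (prc M e (X e) (M X) / pr M (M X)) := by
    intro e
    have e1 : 𝔼 X, Real.log (prc M e (X e) (M X) / pr M (M X)) =
        𝔼 a, ∑ l, prc M e a l * Real.log (prc M e a l / pr M l) := by
      rw [← resample e (fun X a => Real.log (prc M e a (M X) / pr M (M X)))]
      refine Finset.expect_congr rfl fun a _ => ?_
      exact expect_update_apply M e a (fun l => Real.log (prc M e a l / pr M l))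
    rw [e1, Finset.mul_expect]
    refine Finset.expect_le_expect fun a _ => ?_
    refine pinsker (prc M e a) (pr M) (prc_nonneg M e a) (pr_nonneg M) (sum_prc M e a)
      (sum_pr M) ?_
    intro l hl
    have h := expect_prc M e l
    rw [hl] at h
    have h2 := (Finset.expect_eq_zero_iff_of_nonneg (fun a _ => prc_nonneg M e a l)).1 h a
      (Finset.mem_univ a)
    exact h2
  calc ∑ e, 𝔼 a, dl M e a ^ 2 ≤ ∑ e, 4 * 𝔼 X, Real.log (prc M e (X e) (M X) / pr M (M X)) :=
        Finset.sum_le_sum fun e _ => h1 e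
    _ = 4 * 𝔼 X, ∑ e, Real.log (prc M e (X e) (M X) / pr M (M X)) := by
        rw [← Finset.mul_sum, Finset.expect_sum_comm]
    _ ≤ _ := mul_le_mul_of_nonneg_left (info_aux M) (by norm_num)

end

end Pool.Agent.Helper8.VS
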