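import Mathlib
import Pool.Agent.Helper22.ETModel

/-!
Definitions: decision trees that probe weights, mergeable sketches, voters.
-/

set_option autoImplicit false

namespace Pool.Agent.Helper8.VS

open Pool.Agent.Helper22.ETModel

/-- Decision trees with at most `d` probes. A probe reads the weight in one cell; the further
course depends in an arbitrary way on the weight that has been read. A leaf carries the output. -/
inductive Tree (n : ℕ) : ℕ → Type
  | leaf {d : ℕ} (v : ℝ) : Tree n d
  | node {d : ℕ} (i j : Fin n) (next : ℤ → Tree n d) : Tree n (d + 1)

/-- The output of a decision tree on the weights `w`. -/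
def Tree.eval {n : ℕ} : {d : ℕ} → Tree n d → (Fin n → Fin n → ℤ) → ℝ
  | _, .leaf v, _ => v
  | _, .node i j next, w => (next (w i j)).eval w

/-- The flags of an instance. -/
abbrev Flags (n : ℕ) : Type := Fin n → Fin n → Bool

/-- `H` is computed by decision trees that know the flags and probe at most `B` weights,
adaptively. -/
def IsProbe {n : ℕ} (B : ℕ) (H : Inst n → ℝ) : Prop :=
  ∃ t : Flags n → Tree n B, ∀ I : Inst n, I.Valid → H I = (t I.flag).eval I.wt

/-- `H` is a function of the flags and of a mergeable sketch of the weights with at most `2 ^ B`
values: every cell contributes an element of a commutative monoid `S` with at most `2 ^ B`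
elements, which depends in an arbitrary way on the cell, its weight and the flags, and `H` is an
arbitrary function of the flags and the sum of the contributions. -/
def IsSketch {n : ℕ} (B : ℕ) (H : Inst n → ℝ) : Prop :=
  ∃ (S : Type) (_ : AddCommMonoid S) (_ : Fintype S), Fintype.card S ≤ 2 ^ B ∧
    ∃ (φ : Flags n → Fin n → Fin n → ℤ → S) (u : Flags n → S → ℝ), ∀ I : Inst n, I.Valid →
      H I = u I.flag (∑ i, ∑ j, φ I.flag i j (I.wt i j))

/-- A voter of size `B`: its vote is between `0` and `1`, and it is a function of a sketch of `B`
bits or the output of a decision tree with `B` probes. -/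
def IsVoter {n : ℕ} (B : ℕ) (H : Inst n → ℝ) : Prop :=
  (∀ I : Inst n, I.Valid → 0 ≤ H I ∧ H I ≤ 1) ∧ (IsSketch B H ∨ IsProbe B H)

end Pool.Agent.Helper8.VS
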