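import Pool.Agent.Helper8.VS.TreeL

/-!
The instances: complete tripartite flags, random weights.
-/

set_option autoImplicit false
set_option linter.unusedSectionVars false

open Finset
open scoped BigOperators

namespace Pool.Agent.Helper8.VS

open Pool.Agent.Helper22.ETModel

section
variable {n m Q : ℕ}

/-- The position of a pair of vertices in the tripartite graph. -/
def cell (hm : 0 < m) (u v : Fin n) : Option (Fin 3 × (Fin m × Fin m)) :=
  if (u : ℕ) / m = 0 ∧ (v : ℕ) / m = 1 then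
    some (0, (⟨u % m, Nat.mod_lt _ hm⟩, ⟨v % m, Nat.mod_lt _ hm⟩))
  else if (u : ℕ) / m = 1 ∧ (v : ℕ) / m = 0 then
    some (0, (⟨v % m, Nat.mod_lt _ hm⟩, ⟨u % m, Nat.mod_lt _ hm⟩))
  else if (u : ℕ) / m = 1 ∧ (v : ℕ) / m = 2 then
    some (1, (⟨u % m, Nat.mod_lt _ hm⟩, ⟨v % m, Nat.mod_lt _ hm⟩))
  else if (u : ℕ) / m = 2 ∧ (v : ℕ) / m = 1 then
    some (1, (⟨v % m, Nat.mod_lt _ hm⟩, ⟨u % m, Nat.mod_lt _ hm⟩))
  else if (u : ℕ) / m = 2 ∧ (v : ℕ) / m = 0 then
    some (2, (⟨u % m, Nat.mod_lt _ hm⟩, ⟨v % m, Nat.mod_lt _ hm⟩))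
  else if (u : ℕ) / m = 0 ∧ (v : ℕ) / m = 2 then
    some (2, (⟨v % m, Nat.mod_lt _ hm⟩, ⟨u % m, Nat.mod_lt _ hm⟩))
  else none

theorem cell_comm (hm : 0 < m) (u v : Fin n) : cell hm u v = cell hm v u := by
  unfold cell
  rcases Nat.lt_or_ge ((u : ℕ) / m) 3 with hu | hu
  · rcases Nat.lt_or_ge ((v : ℕ) / m) 3 with hv | hv
    · generalize (u : ℕ) / m = x at *
      generalize (v : ℕ) / m = y at *
      interval_cases x <;> interval_cases y <;> simp
    · have h0 : ¬ (v : ℕ) / m = 0 := by omega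
      have h1 : ¬ (v : ℕ) / m = 1 := by omega
      have h2 : ¬ (v : ℕ) / m = 2 := by omega
      simp only [h0, h1, h2, and_false, false_and, if_false]
  · have h0 : ¬ (u : ℕ) / m = 0 := by omega
    have h1 : ¬ (u : ℕ) / m = 1 := by omega
    have h2 : ¬ (u : ℕ) / m = 2 := by omega
    simp only [h0, h1, h2, and_false, false_and, if_false]

theorem cell_self (hm : 0 < m) (u : Fin n) : cell hm u u = none := by
  unfold cell
  split_ifs with h1 h2 h3 h4 h5 h6 <;> first | rfl | omega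

/-- The vertex with index `i` in class `c`. -/
def vx (h : 3 * m ≤ n) (c : Fin 3) (i : Fin m) : Fin n :=
  ⟨c * m + i, by
    have h1 : (c : ℕ) ≤ 2 := by omega
    have h2 : (c : ℕ) * m ≤ 2 * m := Nat.mul_le_mul_right _ h1
    have h3 := i.2
    omega⟩

theorem vx_div (h : 3 * m ≤ n) (c : Fin 3) (i : Fin m) : (vx h c i : ℕ) / m = c := by
  have hi := i.2
  have hm : 0 < m := by omega
  simp only [vx]
  rw [mul_comm, Nat.mul_add_div hm, Nat.div_eq_of_lt hi, add_zero]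

theorem vx_mod (h : 3 * m ≤ n) (c : Fin 3) (i : Fin m) : (vx h c i : ℕ) % m = i := by
  have hi := i.2
  simp only [vx]
  rw [mul_comm, Nat.mul_add_mod, Nat.mod_eq_of_lt hi]

theorem eq_vx (h : 3 * m ≤ n) (hm : 0 < m) (u : Fin n) (c : Fin 3) (hc : (u : ℕ) / m = c) :
    u = vx h c ⟨u % m, Nat.mod_lt _ hm⟩ := by
  apply Fin.ext
  simp only [vx]
  rw [← hc, mul_comm]
  exact (Nat.div_add_mod _ _).symm

/-- The three kinds of cells. -/
def ee (h : 3 * m ≤ n) (c : Fin 3) (i j : Fin m) : Sym2 (Fin n) := s(vx h c i, vx h (c + 1) j)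

theorem cell_eq (h : 3 * m ≤ n) (hm : 0 < m) (u v : Fin n) (c : Fin 3) (i j : Fin m)
    (hc : cell hm u v = some (c, (i, j))) : s(u, v) = ee h c i j := by
  unfold cell at hc
  unfold ee
  split_ifs at hc with h1 h2 h3 h4 h5 h6
  · simp only [Option.some.injEq, Prod.mk.injEq] at hc
    obtain ⟨rfl, rfl, rfl⟩ := hc
    rw [← eq_vx h hm u 0 h1.1, ← eq_vx h hm v (0 + 1) h1.2]
  · simp only [Option.some.injEq, Prod.mk.injEq] at hc
    obtain ⟨rfl, rfl, rfl⟩ := hc
    rw [← eq_vx h hm v 0 h2.2, ← eq_vx h hm u (0 + 1) h2.1, Sym2.eq_swap]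
  · simp only [Option.some.injEq, Prod.mk.injEq] at hc
    obtain ⟨rfl, rfl, rfl⟩ := hc
    rw [← eq_vx h hm u 1 h3.1, ← eq_vx h hm v (1 + 1) h3.2]
  · simp only [Option.some.injEq, Prod.mk.injEq] at hc
    obtain ⟨rfl, rfl, rfl⟩ := hc
    rw [← eq_vx h hm v 1 h4.2, ← eq_vx h hm u (1 + 1) h4.1, Sym2.eq_swap]
  · simp only [Option.some.injEq, Prod.mk.injEq] at hc
    obtain ⟨rfl, rfl, rfl⟩ := hc
    rw [← eq_vx h hm u 2 h5.1, ← eq_vx h hm v (2 + 1) (by rw [h5.2]; rfl)]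
  · simp only [Option.some.injEq, Prod.mk.injEq] at hc
    obtain ⟨rfl, rfl, rfl⟩ := hc
    rw [← eq_vx h hm v 2 h6.2, ← eq_vx h hm u (2 + 1) (by rw [h6.1]; rfl), Sym2.eq_swap]

theorem cell_vx (h : 3 * m ≤ n) (hm : 0 < m) (c : Fin 3) (i j : Fin m) :
    cell hm (vx h c i) (vx h (c + 1) j) = some (c, (i, j)) := by
  unfold cell
  simp only [vx_div, vx_mod]
  fin_cases c <;> simp

theorem ee_inj (h : 3 * m ≤ n) (c c' : Fin 3) (i j i' j' : Fin m)
    (he : ee h c i j = ee h c' i' j') : c = c' ∧ i = i' ∧ j = j' := by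
  have hm : 0 < m := by have := i.2; omega
  have h1 := cell_vx h hm c i j
  have h2 := cell_vx h hm c' i' j'
  have h3 : cell hm (vx h c i) (vx h (c + 1) j) = cell hm (vx h c' i') (vx h (c' + 1) j') := by
    unfold ee at he
    rcases Sym2.eq_iff.1 he with ⟨ha, hb⟩ | ⟨ha, hb⟩
    · rw [ha, hb]
    · rw [ha, hb, cell_comm]
  rw [h1, h2] at h3
  simp only [Option.some.injEq, Prod.mk.injEq] at h3
  exact h3

/-- The weights. -/
def Wt (hm : 0 < m) (X Y : Cx m Q) (Z : Cz m Q) (u v : Fin n) : ℤ :=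
  match cell hm u v with
  | none => 0
  | some (0, p) => (X p : ℕ)
  | some (1, p) => (Y p : ℕ)
  | some (2, p) => -((Z p : ℕ) : ℤ)

/-- The placement. -/
def place (Q : ℕ) (h : 3 * m ≤ n) (hm : 0 < m) : Place n m Q where
  W := Wt hm
  e1 := ee h 0
  e2 := ee h 1
  e3 := ee h 2
  h1 := by
    intro X Y Z i j a u v huv
    unfold Wt
    rcases hc : cell hm u v with _ | ⟨c, i', j'⟩
    · rfl
    · have := cell_eq h hm u v c i' j' hc
      fin_cases c
      · simp only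
        rw [Function.update_of_ne]
        rintro ⟨rfl, rfl⟩
        exact huv this
      · rfl
      · rfl
  h2 := by
    intro X Y Z i j a u v huv
    unfold Wt
    rcases hc : cell hm u v with _ | ⟨c, i', j'⟩
    · rfl
    · have := cell_eq h hm u v c i' j' hc
      fin_cases c
      · rfl
      · simp only
        rw [Function.update_of_ne]
        rintro ⟨rfl, rfl⟩
        exact huv this
      · rfl
  h3 := by
    intro X Y Z i j a u v huv
    unfold Wt
    rcases hc : cell hm u v with _ | ⟨c, i', j'⟩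
    · rfl
    · have := cell_eq h hm u v c i' j' hc
      fin_cases c
      · rfl
      · rfl
      · simp only
        rw [Function.update_of_ne]
        rintro ⟨rfl, rfl⟩
        exact huv this
  inj1 := fun i j i' j' he => (ee_inj h _ _ _ _ _ _ he).2
  inj2 := fun i j i' j' he => (ee_inj h _ _ _ _ _ _ he).2
  inj3 := fun i j i' j' he => (ee_inj h _ _ _ _ _ _ he).2
  ne12 := fun i j i' j' he => by simpa using (ee_inj h _ _ _ _ _ _ he).1
  ne13 := fun i j i' j' he => by simpa using (ee_inj h _ _ _ _ _ _ he).1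
  ne23 := fun i j i' j' he => by simpa using (ee_inj h _ _ _ _ _ _ he).1

/-- The complete tripartite flags. -/
def fl (hm : 0 < m) (u v : Fin n) : Bool := (cell hm u v).isSome

/-- The instance. -/
def mkInst (hm : 0 < m) (X Y : Cx m Q) (Z : Cz m Q) : Inst n := ⟨fl hm, Wt hm X Y Z⟩

theorem mkInst_valid (hm : 0 < m) (hQ : 2 * Q ≤ n ^ 300) (X Y : Cx m Q) (Z : Cz m Q) :
    (mkInst hm X Y Z : Inst n).Valid := by
  refine ⟨?_, ?_, ?_, ?_⟩
  · intro u v
    simp only [mkInst, fl, cell_comm hm u v]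
  · intro u
    simp only [mkInst, fl, cell_self, Option.isSome_none]
  · intro u v
    simp only [mkInst, Wt, cell_comm hm u v]
  · intro u v
    have hQ' : (2 * Q : ℤ) ≤ (n : ℤ) ^ 300 := by exact_mod_cast hQ
    simp only [mkInst, Wt]
    rcases hc : cell hm u v with _ | ⟨c, p⟩
    · simp
    · fin_cases c
      · have := (X p).2
        simp only
        rw [abs_of_nonneg (by positivity)]; omega
      · have := (Y p).2
        simp only
        rw [abs_of_nonneg (by positivity)]; omega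
      · have := (Z p).2
        simp only
        rw [abs_neg, abs_of_nonneg (by positivity)]; omega

/-- Some planted sum is zero. -/
def Zero (X Y : Cx m Q) (Z : Cz m Q) : Prop :=
  ∃ i j k : Fin m, ((X (i, j) : ℕ) : ℤ) + (Y (j, k) : ℕ) - (Z (k, i) : ℕ) = 0

theorem yes_of_zero (h : 3 * m ≤ n) (hm : 0 < m) (X Y : Cx m Q) (Z : Cz m Q)
    (hz : Zero X Y Z) : (mkInst hm X Y Z : Inst n).Yes := by
  obtain ⟨i, j, k, hz⟩ := hz
  have c01 : cell hm (vx h 0 i) (vx h 1 j) = some (0, (i, j)) := cell_vx h hm 0 i j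
  have c12 : cell hm (vx h 1 j) (vx h 2 k) = some (1, (j, k)) := cell_vx h hm 1 j k
  have c20 : cell hm (vx h 0 i) (vx h 2 k) = some (2, (k, i)) := by
    rw [cell_comm]; exact cell_vx h hm 2 k i
  have hne : ∀ (c c' : Fin 3) (i j : Fin m), c ≠ c' → vx h c i ≠ vx h c' j := by
    intro c c' i j hc he
    have h1 := vx_div h c i
    have h2 := vx_div h c' j
    rw [he, h2] at h1
    exact hc (Fin.ext h1.symm)
  refine ⟨vx h 0 i, vx h 1 j, vx h 2 k, hne _ _ _ _ (by decide), hne _ _ _ _ (by decide),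
    hne _ _ _ _ (by decide), ?_, ?_, ?_, ?_⟩
  · simp only [mkInst, fl, c01, Option.isSome_some]
  · simp only [mkInst, fl, c12, Option.isSome_some]
  · simp only [mkInst, fl, c20, Option.isSome_some]
  · simp only [mkInst, Wt, c01, c12, c20]
    linarith

theorem zero_of_yes (hm : 0 < m) (X Y : Cx m Q) (Z : Cz m Q)
    (hy : (mkInst hm X Y Z : Inst n).Yes) : Zero X Y Z := by
  obtain ⟨u, v, w, _, _, _, huv, hvw, huw, hs⟩ := hy
  simp only [mkInst, fl, Wt] at huv hvw huw hs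
  have hcl : ∀ x y : Fin n, (cell hm x y).isSome = true →
      ((x : ℕ) / m < 3 ∧ (y : ℕ) / m < 3 ∧ (x : ℕ) / m ≠ (y : ℕ) / m) := by
    intro x y hxy
    unfold cell at hxy
    split_ifs at hxy with h1 h2 h3 h4 h5 h6 <;> first | omega | simp at hxy
  obtain ⟨a1, a2, a3⟩ := hcl u v huv
  obtain ⟨_, b2, b3⟩ := hcl v w hvw
  obtain ⟨_, _, c3⟩ := hcl u w huw
  have tri : ∀ x : ℕ, x < 3 → x = 0 ∨ x = 1 ∨ x = 2 := fun x hx => by omega
  have hu := tri _ a1
  have hv := tri _ a2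
  have hw := tri _ b2
  rcases hu with hu | hu | hu <;> rcases hv with hv | hv | hv <;>
    rcases hw with hw | hw | hw <;> try (first | (exfalso; omega))
  all_goals
    simp only [cell, hu, hv, hw] at hs
    norm_num at hs
  · exact ⟨⟨u % m, Nat.mod_lt _ hm⟩, ⟨v % m, Nat.mod_lt _ hm⟩, ⟨w % m, Nat.mod_lt _ hm⟩,
      by linarith⟩
  · exact ⟨⟨u % m, Nat.mod_lt _ hm⟩, ⟨w % m, Nat.mod_lt _ hm⟩, ⟨v % m, Nat.mod_lt _ hm⟩,
      by linarith⟩
  · exact ⟨⟨v % m, Nat.mod_lt _ hm⟩, ⟨u % m, Nat.mod_lt _ hm⟩, ⟨w % m, Nat.mod_lt _ hm⟩,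
      by linarith⟩
  · exact ⟨⟨w % m, Nat.mod_lt _ hm⟩, ⟨u % m, Nat.mod_lt _ hm⟩, ⟨v % m, Nat.mod_lt _ hm⟩,
      by linarith⟩
  · exact ⟨⟨v % m, Nat.mod_lt _ hm⟩, ⟨w % m, Nat.mod_lt _ hm⟩, ⟨u % m, Nat.mod_lt _ hm⟩,
      by linarith⟩
  · exact ⟨⟨w % m, Nat.mod_lt _ hm⟩, ⟨v % m, Nat.mod_lt _ hm⟩, ⟨u % m, Nat.mod_lt _ hm⟩,
      by linarith⟩

end

end Pool.Agent.Helper8.VS
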