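import Pool.Agent.Helper8.VS.LowerL
import Pool.Agent.Helper8.VS.UpperL

/-!
The corollary for functions of integer linear forms.
-/

set_option autoImplicit false
set_option linter.unusedSectionVars false

open Finset
open scoped BigOperators

namespace Pool.Agent.Helper8.VS

open Pool.Agent.Helper22.ETModel

theorem linear_bound {n K : ℕ} (c : Fin n → Fin n → ℤ) (hc : ∀ i j, |c i j| ≤ K) (I : Inst n)
    (hI : I.Valid) : |∑ i, ∑ j, c i j * I.wt i j| ≤ (K * n ^ 302 : ℕ) := by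
  have h1 : ∀ i j, |c i j * I.wt i j| ≤ (K : ℤ) * (n : ℤ) ^ 300 := by
    intro i j
    rw [abs_mul]
    exact mul_le_mul (hc i j) (hI.2.2.2 i j) (abs_nonneg _) (by positivity)
  calc |∑ i, ∑ j, c i j * I.wt i j| ≤ ∑ i, ∑ j, |c i j * I.wt i j| :=
        (Finset.abs_sum_le_sum_abs _ _).trans
          (Finset.sum_le_sum fun i _ => Finset.abs_sum_le_sum_abs _ _)
    _ ≤ ∑ _i : Fin n, ∑ _j : Fin n, (K : ℤ) * (n : ℤ) ^ 300 :=
        Finset.sum_le_sum fun i _ => Finset.sum_le_sum fun j _ => h1 i j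
    _ = (K * n ^ 302 : ℕ) := by
        simp only [Finset.sum_const, Finset.card_univ, Fintype.card_fin, nsmul_eq_mul]
        push_cast
        ring

theorem lower_linear {n K : ℕ} (hn : 3 ≤ n) (hK : 1 ≤ K) {ι : Type} [Fintype ι]
    (c : ι → Fin n → Fin n → ℤ) (hc : ∀ s i j, |c s i j| ≤ K) (u : ι → Flags n → ℤ → ℝ)
    (hu : ∀ s f z, 0 ≤ u s f z ∧ u s f z ≤ 1) (a : ι → ℝ) (θ : ℝ)
    (hyes : ∀ I : Inst n, I.Valid → I.Yes →
      θ + 1 ≤ ∑ s, a s * u s I.flag (∑ i, ∑ j, c s i j * I.wt i j))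
    (hno : ∀ I : Inst n, I.Valid → ¬ I.Yes →
      ∑ s, a s * u s I.flag (∑ i, ∑ j, c s i j * I.wt i j) ≤ θ) :
    (n : ℝ) ^ 3 ≤ 2 ^ 25 * (Real.logb 2 ((K : ℝ) * n)) ^ (3 / 2 : ℝ) * ∑ s, |a s| := by
  set V := K * n ^ 302 with hV
  set B := Nat.clog 2 (2 * V + 1) with hB
  have hV1 : 1 ≤ V := Nat.mul_pos hK (by positivity)
  have hBV : 2 * V + 1 ≤ 2 ^ B := Nat.le_pow_clog (by norm_num) _
  have hB1 : 1 ≤ B := Nat.clog_pos (by norm_num) (by omega)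
  have hKr : (1 : ℝ) ≤ K := by exact_mod_cast hK
  have hnr : (3 : ℝ) ≤ n := by exact_mod_cast hn
  have hKn : (3 : ℝ) ≤ (K : ℝ) * n := by nlinarith
  set L := Real.logb 2 ((K : ℝ) * n) with hL
  have hL1 : 1 ≤ L := by
    rw [hL, Real.le_logb_iff_rpow_le (by norm_num) (by linarith)]
    rw [Real.rpow_one]; linarith
  have hBL : (B : ℝ) ≤ 305 * L := by
    have h1 : 2 ^ (B - 1) < 2 * V + 1 := Nat.pow_pred_clog_lt_self (by norm_num) (by omega)
    have h2 : 2 ^ B ≤ 8 * V := by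
      have : 2 ^ B = 2 * 2 ^ (B - 1) := by
        rw [← pow_succ']; congr 1; omega
      omega
    have h3 : (2 : ℝ) ^ B ≤ 8 * ((K : ℝ) * (n : ℝ) ^ 302) := by
      have : ((2 ^ B : ℕ) : ℝ) ≤ ((8 * V : ℕ) : ℝ) := by exact_mod_cast h2
      rw [hV] at this
      push_cast at this
      exact this
    have h4 : (2 : ℝ) ^ B ≤ ((K : ℝ) * n) ^ 305 := by
      refine h3.trans ?_
      have a1 : (8 : ℝ) ≤ ((K : ℝ) * n) ^ 3 := by
        calc (8 : ℝ) ≤ 3 ^ 3 := by norm_num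
          _ ≤ _ := pow_le_pow_left₀ (by norm_num) hKn 3
      have a2 : (K : ℝ) * (n : ℝ) ^ 302 ≤ ((K : ℝ) * n) ^ 302 := by
        rw [mul_pow]
        refine mul_le_mul_of_nonneg_right ?_ (by positivity)
        exact le_self_pow₀ hKr (by norm_num)
      calc 8 * ((K : ℝ) * (n : ℝ) ^ 302) ≤ ((K : ℝ) * n) ^ 3 * ((K : ℝ) * n) ^ 302 :=
            mul_le_mul a1 a2 (by positivity) (by positivity)
        _ = _ := by rw [← pow_add]
    have h5 := Real.logb_le_logb_of_le (b := 2) (by norm_num) (by positivity) h4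
    rw [← Real.rpow_natCast (2 : ℝ) B, Real.logb_rpow (by norm_num) (by norm_num),
      Real.logb_pow] at h5
    have h6 : ((305 : ℕ) : ℝ) = 305 := by norm_num
    rw [h6] at h5
    exact h5
  have hlow := lower hn (fun s I => u s I.flag (∑ i, ∑ j, c s i j * I.wt i j)) (fun _ => B)
    (fun _ => hB1) (fun s => ⟨fun I _ => hu s _ _, Or.inl
      (isSketch_of_linear V B hBV (c s) (fun I hI => linear_bound (c s) (hc s) I hI) (u s))⟩)
    a θ hyes hno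
  have hrp : (B : ℝ) ^ (3 / 2 : ℝ) ≤ 2 ^ 13 * L ^ (3 / 2 : ℝ) := by
    have h305 : (305 : ℝ) ^ (3 / 2 : ℝ) ≤ 2 ^ 13 := by
      have e : (305 : ℝ) ^ (3 / 2 : ℝ) = √((305 : ℝ) ^ 3) := by
        have := rpow_eq_sqrt 305
        exact_mod_cast this
      rw [e]
      refine Real.sqrt_le_iff.2 ⟨by norm_num, by norm_num⟩
    calc (B : ℝ) ^ (3 / 2 : ℝ) ≤ (305 * L) ^ (3 / 2 : ℝ) :=
          Real.rpow_le_rpow (Nat.cast_nonneg _) hBL (by norm_num)
      _ = 305 ^ (3 / 2 : ℝ) * L ^ (3 / 2 : ℝ) := Real.mul_rpow (by norm_num) (by linarith)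
      _ ≤ _ := mul_le_mul_of_nonneg_right h305 (Real.rpow_nonneg (by linarith) _)
  calc (n : ℝ) ^ 3 ≤ 2 ^ 12 * ∑ s, |a s| * (B : ℝ) ^ (3 / 2 : ℝ) := hlow
    _ = 2 ^ 12 * ((B : ℝ) ^ (3 / 2 : ℝ) * ∑ s, |a s|) := by
        rw [← Finset.sum_mul]; ring
    _ ≤ 2 ^ 12 * ((2 ^ 13 * L ^ (3 / 2 : ℝ)) * ∑ s, |a s|) := by
        refine mul_le_mul_of_nonneg_left ?_ (by norm_num)
        exact mul_le_mul_of_nonneg_right hrp (Finset.sum_nonneg fun _ _ => abs_nonneg _)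
    _ = _ := by ring

end Pool.Agent.Helper8.VS
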