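import Pool.Agent.Helper8.VS.InstL

/-!
The lower bound.
-/

set_option autoImplicit false
set_option linter.unusedSectionVars false

open Finset
open scoped BigOperators

namespace Pool.Agent.Helper8.VS

open Pool.Agent.Helper22.ETModel

section
variable {n m Q : ℕ}

/-- A uniform coordinate avoids a given value. -/
theorem point (hQ : 0 < Q) (e : Fin m × Fin m) (z : ℤ) :
    𝔼 X : Cx m Q, ind (((X e : ℕ) : ℤ) = z) ≤ 1 / Q := by
  have hQ' : (0 : ℝ) < Q := by exact_mod_cast hQ
  have : Nonempty (Fin Q) := ⟨⟨0, hQ⟩⟩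
  rw [← resample' e (fun X : Cx m Q => ind (((X e : ℕ) : ℤ) = z))]
  simp only [Function.update_self, Finset.expect_const Finset.univ_nonempty]
  rw [Fintype.expect_eq_sum_div_card, Fintype.card_fin]
  refine div_le_div_of_nonneg_right ?_ hQ'.le
  by_cases h : ∃ a : Fin Q, ((a : ℕ) : ℤ) = z
  · obtain ⟨a, ha⟩ := h
    rw [Finset.sum_eq_single a]
    · exact ind_le_one _
    · intro b _ hb
      refine ind_false fun h' => hb (Fin.ext ?_)
      omega
    · intro h; exact absurd (Finset.mem_univ a) h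
  · push Not at h
    rw [Finset.sum_eq_zero]
    · norm_num
    · intro a _; exact ind_false (h a)

/-- Without the planted zero sum the probability of a zero sum is small. -/
theorem prob_zero (hQ : 0 < Q) (i j k : Fin m) :
    𝔼 a, 𝔼 b, gT (fun (X Y : Cx m Q) (Z : Cz m Q) => ind (Zero X Y Z)) i j k a b (add1 a b) ≤
      (m : ℝ) ^ 3 / Q := by
  have hQ' : (0 : ℝ) < Q := by exact_mod_cast hQ
  have : Nonempty (Fin Q) := ⟨⟨0, hQ⟩⟩
  have : Nonempty (Fin (2 * Q)) := ⟨⟨0, by omega⟩⟩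
  refine Finset.expect_le Finset.univ_nonempty fun a _ => ?_
  refine Finset.expect_le Finset.univ_nonempty fun b _ => ?_
  set c := add1 a b with hc
  set I : Fin m → Fin m → Fin m → Cx m Q → Cx m Q → Cz m Q → ℝ := fun i' j' k' X Y Z =>
    ind (((X (i', j') : ℕ) : ℤ) + (Y (j', k') : ℕ) - (Z (k', i') : ℕ) = 0) with hI
  have hle : ∀ X Y Z, ind (Zero X Y Z) ≤ ∑ i', ∑ j', ∑ k', I i' j' k' X Y Z := by
    intro X Y Z
    have hn : ∀ i' j' k', 0 ≤ I i' j' k' X Y Z := fun _ _ _ => ind_nonneg _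
    by_cases h : Zero X Y Z
    · obtain ⟨i', j', k', h'⟩ := h
      calc ind (Zero X Y Z) ≤ 1 := ind_le_one _
        _ = I i' j' k' X Y Z := (ind_true h').symm
        _ ≤ ∑ k', I i' j' k' X Y Z :=
            Finset.single_le_sum (f := fun k' => I i' j' k' X Y Z) (fun _ _ => hn _ _ _)
              (Finset.mem_univ k')
        _ ≤ ∑ j', ∑ k', I i' j' k' X Y Z :=
            Finset.single_le_sum (f := fun j' => ∑ k', I i' j' k' X Y Z)
              (fun _ _ => Finset.sum_nonneg fun _ _ => hn _ _ _) (Finset.mem_univ j')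
        _ ≤ _ := Finset.single_le_sum (f := fun i' => ∑ j', ∑ k', I i' j' k' X Y Z)
              (fun _ _ => Finset.sum_nonneg fun _ _ => Finset.sum_nonneg fun _ _ => hn _ _ _)
              (Finset.mem_univ i')
    · rw [ind_false h]
      exact Finset.sum_nonneg fun _ _ => Finset.sum_nonneg fun _ _ =>
        Finset.sum_nonneg fun _ _ => hn _ _ _
  have hone : ∀ i' j' k', gT (I i' j' k') i j k a b c ≤ 1 / Q := by
    intro i' j' k'
    by_cases h1 : (i', j') = (i, j)
    · by_cases h2 : (j', k') = (j, k)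
      · -- the planted triangle
        simp only [Prod.mk.injEq] at h1 h2
        obtain ⟨rfl, rfl⟩ := h1
        obtain ⟨_, rfl⟩ := h2
        have : gT (I i' j' k') i' j' k' a b c = 0 := by
          unfold gT
          refine Finset.expect_eq_zero fun X _ => Finset.expect_eq_zero fun Y _ =>
            Finset.expect_eq_zero fun Z _ => ?_
          simp only [hI, Function.update_self]
          refine ind_false ?_
          simp only [hc, add1]
          push_cast
          intro h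
          linarith
        rw [this]; positivity
      · unfold gT
        refine Finset.expect_le Finset.univ_nonempty fun X _ => ?_
        rw [Finset.expect_comm]
        refine Finset.expect_le Finset.univ_nonempty fun Z _ => ?_
        simp only [hI, Function.update_of_ne h2]
        refine le_trans (le_of_eq ?_) (point hQ (j', k')
          (((Function.update Z (k, i) c (k', i') : Fin (2 * Q)) : ℕ) -
            ((Function.update X (i, j) a (i', j') : Fin Q) : ℕ)))
        refine Finset.expect_congr rfl fun Y _ => ?_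
        congr 1
        apply propext
        constructor <;> intro h <;> linarith
    · unfold gT
      rw [Finset.expect_comm]
      refine Finset.expect_le Finset.univ_nonempty fun Y _ => ?_
      rw [Finset.expect_comm]
      refine Finset.expect_le Finset.univ_nonempty fun Z _ => ?_
      simp only [hI, Function.update_of_ne h1]
      refine le_trans (le_of_eq ?_) (point hQ (i', j')
        (((Function.update Z (k, i) c (k', i') : Fin (2 * Q)) : ℕ) -
          ((Function.update Y (j, k) b (j', k') : Fin Q) : ℕ)))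
      refine Finset.expect_congr rfl fun X _ => ?_
      congr 1
      apply propext
      constructor <;> intro h <;> linarith
  calc gT (fun X Y Z => ind (Zero X Y Z)) i j k a b c
      ≤ gT (fun X Y Z => ∑ i', ∑ j', ∑ k', I i' j' k' X Y Z) i j k a b c :=
        gT_mono _ _ hle _ _ _ _ _ _
    _ = ∑ i', ∑ j', ∑ k', gT (I i' j' k') i j k a b c := by
        unfold gT
        simp only [Finset.expect_sum_comm]
    _ ≤ ∑ _i' : Fin m, ∑ _j' : Fin m, ∑ _k' : Fin m, (1 / Q : ℝ) :=
        Finset.sum_le_sum fun _ _ => Finset.sum_le_sum fun _ _ => Finset.sum_le_sum fun _ _ =>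
          hone _ _ _
    _ = (m : ℝ) ^ 3 / Q := by
        simp only [Finset.sum_const, Finset.card_univ, Fintype.card_fin, nsmul_eq_mul]
        ring

theorem dT_sum {ι : Type} [Fintype ι] (a : ι → ℝ) (G : ι → Cx m Q → Cx m Q → Cz m Q → ℝ)
    (i j k : Fin m) :
    dT (fun X Y Z => ∑ s, a s * G s X Y Z) i j k = ∑ s, a s * dT (G s) i j k := by
  unfold dT gT
  simp only [Finset.expect_sum_comm, ← Finset.mul_expect, ← Finset.sum_sub_distrib, ← mul_sub]

/-- The abstract lower bound: `S` separates the yes-instances from the no-instances. -/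
theorem gap (hQ : 0 < Q) (S : Cx m Q → Cx m Q → Cz m Q → ℝ) (θ A : ℝ)
    (hyes : ∀ X Y Z, Zero X Y Z → θ + 1 ≤ S X Y Z)
    (hno : ∀ X Y Z, ¬ Zero X Y Z → S X Y Z ≤ θ) (hA : ∀ X Y Z, |S X Y Z| ≤ A) (i j k : Fin m) :
    1 - 2 * A * ((m : ℝ) ^ 3 / Q) ≤ dT S i j k := by
  have : Nonempty (Fin Q) := ⟨⟨0, hQ⟩⟩
  have : Nonempty (Fin (2 * Q)) := ⟨⟨0, by omega⟩⟩
  have hA0 : 0 ≤ A := (abs_nonneg _).trans (hA (fun _ => ⟨0, hQ⟩) (fun _ => ⟨0, hQ⟩)
    (fun _ => ⟨0, by omega⟩))
  -- a no-instance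
  have hθ : -A ≤ θ := by
    have hn : ¬ Zero (m := m) (Q := Q) (fun _ => ⟨0, hQ⟩) (fun _ => ⟨0, hQ⟩)
        (fun _ => ⟨1, by omega⟩) := by
      rintro ⟨_, _, _, h⟩
      norm_num at h
    have h1 := hno _ _ _ hn
    have h2 := (abs_le.1 (hA (fun _ => ⟨0, hQ⟩) (fun _ => ⟨0, hQ⟩) (fun _ => ⟨1, by omega⟩))).1
    linarith
  have h0 : θ + 1 ≤ 𝔼 a, 𝔼 b, gT S i j k a b (add0 a b) := by
    refine Finset.le_expect Finset.univ_nonempty fun a _ => ?_
    refine Finset.le_expect Finset.univ_nonempty fun b _ => ?_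
    unfold gT
    refine Finset.le_expect Finset.univ_nonempty fun X _ => ?_
    refine Finset.le_expect Finset.univ_nonempty fun Y _ => ?_
    refine Finset.le_expect Finset.univ_nonempty fun Z _ => ?_
    refine hyes _ _ _ ⟨i, j, k, ?_⟩
    simp only [Function.update_self, add0]
    push_cast
    ring
  have hpt : ∀ X Y Z, S X Y Z ≤ θ + 2 * A * ind (Zero X Y Z) := by
    intro X Y Z
    by_cases h : Zero X Y Z
    · rw [ind_true h]
      have := (abs_le.1 (hA X Y Z)).2
      linarith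
    · rw [ind_false h]
      have := hno X Y Z h
      linarith
  have h1 : 𝔼 a, 𝔼 b, gT S i j k a b (add1 a b) ≤ θ + 2 * A * ((m : ℝ) ^ 3 / Q) := by
    have e : ∀ (a b : Fin Q) (c : Fin (2 * Q)),
        gT (fun X Y Z => θ + 2 * A * ind (Zero X Y Z)) i j k a b c =
        θ + 2 * A * gT (fun X Y Z => ind (Zero X Y Z)) i j k a b c := by
      intro a b c
      unfold gT
      simp only [Finset.expect_add_distrib, ← Finset.mul_expect,
        Finset.expect_const Finset.univ_nonempty]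
    calc 𝔼 a, 𝔼 b, gT S i j k a b (add1 a b)
        ≤ 𝔼 a, 𝔼 b, gT (fun X Y Z => θ + 2 * A * ind (Zero X Y Z)) i j k a b (add1 a b) :=
          Finset.expect_le_expect fun _ _ => Finset.expect_le_expect fun _ _ =>
            gT_mono _ _ hpt _ _ _ _ _ _
      _ = θ + 2 * A * 𝔼 a : Fin Q, 𝔼 b : Fin Q,
            gT (fun (X Y : Cx m Q) (Z : Cz m Q) => ind (Zero X Y Z)) i j k a b (add1 a b) := by
          simp only [e, Finset.expect_add_distrib, ← Finset.mul_expect,
            Finset.expect_const Finset.univ_nonempty]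
      _ ≤ _ := by
          have := mul_le_mul_of_nonneg_left (prob_zero (m := m) hQ i j k)
            (by positivity : 0 ≤ 2 * A)
          linarith
  unfold dT
  simp only [Finset.expect_sub_distrib]
  linarith

/-- A voter restricted to the random instances. -/
theorem voter_total (h3 : 3 * m ≤ n) (hm : 0 < m) (hQ : 0 < Q) (hQn : 2 * Q ≤ n ^ 300) (B : ℕ)
    (H : Inst n → ℝ) (hH : IsVoter B H) :
    ∑ i, ∑ j, ∑ k, |dT (fun (X Y : Cx m Q) (Z : Cz m Q) => H (mkInst hm X Y Z)) i j k| ≤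
      14 * √((B : ℝ) ^ 3) + 6 * (m : ℝ) ^ 3 / Q := by
  classical
  obtain ⟨h01, hS | hT⟩ := hH
  · obtain ⟨S, iS1, iS2, hcard, φ, u, hu⟩ := hS
    set X0 : Cx m Q := fun _ => ⟨0, hQ⟩ with hX0
    set Z0 : Cz m Q := fun _ => ⟨0, by omega⟩ with hZ0
    set f : Fin n → Fin n → ℤ → S := φ (fl hm) with hf
    set M1 : Cx m Q → S := fun X => ∑ u, ∑ v,
      if (cell hm u v).map Prod.fst = some 0 then f u v (Wt hm X X0 Z0 u v) else 0 with hM1
    set M2 : Cx m Q → S := fun Y => ∑ u, ∑ v,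
      if (cell hm u v).map Prod.fst = some 1 then f u v (Wt hm X0 Y Z0 u v) else 0 with hM2
    set M3 : Cz m Q → S := fun Z => ∑ u, ∑ v,
      if (cell hm u v).map Prod.fst = some 0 ∨ (cell hm u v).map Prod.fst = some 1 then 0 else
        f u v (Wt hm X0 X0 Z u v) with hM3
    set F : S → S → S → ℝ := fun a b c => max 0 (min 1 (u (fl hm) (a + b + c))) with hF
    have hsum : ∀ X Y Z, ∑ x, ∑ y, f x y (Wt hm X Y Z x y) = M1 X + M2 Y + M3 Z := by
      intro X Y Z
      simp only [hM1, hM2, hM3, ← Finset.sum_add_distrib]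
      refine Finset.sum_congr rfl fun x _ => Finset.sum_congr rfl fun y _ => ?_
      unfold Wt
      rcases hc : cell hm x y with _ | ⟨c, p⟩
      · simp
      · fin_cases c <;> simp
    have he : (fun (X Y : Cx m Q) (Z : Cz m Q) => H (mkInst hm X Y Z)) =
        fun X Y Z => F (M1 X) (M2 Y) (M3 Z) := by
      funext X Y Z
      have hv : (mkInst hm X Y Z : Inst n).Valid := mkInst_valid hm hQn X Y Z
      have h1 := h01 _ hv
      have h2 := hu _ hv
      simp only [mkInst] at h1 h2 ⊢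
      rw [h2] at h1 ⊢
      simp only [hF, ← hsum X Y Z]
      rw [min_eq_right h1.2, max_eq_right h1.1]
    rw [he]
    exact sketch_total hQ M1 M2 M3 F (fun a b c => by
      rw [abs_of_nonneg (le_max_left _ _)]
      exact max_le zero_le_one (min_le_left _ _)) B hcard hcard hcard
  · obtain ⟨t, ht⟩ := hT
    have he : (fun (X Y : Cx m Q) (Z : Cz m Q) => H (mkInst hm X Y Z)) =
        fun X Y Z => (t (fl hm)).eval ((place Q h3 hm).W X Y Z) := by
      funext X Y Z
      exact ht _ (mkInst_valid hm hQn X Y Z)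
    rw [he]
    refine (tree_total hQ (place Q h3 hm) (t (fl hm)) ?_).trans ?_
    · intro X Y Z
      have := congrFun (congrFun (congrFun he X) Y) Z
      rw [← this]
      exact h01 _ (mkInst_valid hm hQn X Y Z)
    · have hQ' : (0 : ℝ) < Q := by exact_mod_cast hQ
      have a1 : 0 ≤ √((B : ℝ) ^ 3) := Real.sqrt_nonneg _
      have a2 : 4 * (m : ℝ) ^ 3 / Q ≤ 6 * (m : ℝ) ^ 3 / Q := by
        refine div_le_div_of_nonneg_right ?_ hQ'.le
        have : (0 : ℝ) ≤ (m : ℝ) ^ 3 := by positivity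
        linarith
      linarith

end

theorem rpow_eq_sqrt (B : ℕ) : (B : ℝ) ^ (3 / 2 : ℝ) = √((B : ℝ) ^ 3) := by
  rw [Real.sqrt_eq_rpow, ← Real.rpow_natCast, ← Real.rpow_mul (Nat.cast_nonneg B)]
  norm_num

/-- The lower bound. -/
theorem lower {n : ℕ} (hn : 3 ≤ n) {ι : Type} [Fintype ι] (H : ι → Inst n → ℝ) (B : ι → ℕ)
    (hB : ∀ s, 1 ≤ B s) (hH : ∀ s, IsVoter (B s) (H s)) (a : ι → ℝ) (θ : ℝ)
    (hyes : ∀ I : Inst n, I.Valid → I.Yes → θ + 1 ≤ ∑ s, a s * H s I)
    (hno : ∀ I : Inst n, I.Valid → ¬ I.Yes → ∑ s, a s * H s I ≤ θ) :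
    (n : ℝ) ^ 3 ≤ 2 ^ 12 * ∑ s, |a s| * (B s : ℝ) ^ (3 / 2 : ℝ) := by
  set m := n / 3 with hmdef
  have hm : 0 < m := by omega
  have h3 : 3 * m ≤ n := by omega
  have hnm : n ≤ 5 * m := by omega
  set A := ∑ s, |a s| with hA
  have hB1 : ∀ s, 1 ≤ √((B s : ℝ) ^ 3) := by
    intro s
    have : (1 : ℝ) ≤ B s := by exact_mod_cast hB s
    exact Real.one_le_sqrt.2 (one_le_pow₀ this)
  have hAle : A ≤ ∑ s, |a s| * (B s : ℝ) ^ (3 / 2 : ℝ) := by
    refine Finset.sum_le_sum fun s _ => ?_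
    rw [rpow_eq_sqrt]
    exact le_mul_of_one_le_right (abs_nonneg _) (hB1 s)
  have hn0 : (0 : ℝ) < n := by positivity
  rcases le_or_gt ((n : ℝ) ^ 3) A with hbig | hsmall
  · have h0 : 0 ≤ A := Finset.sum_nonneg fun _ _ => abs_nonneg _
    linarith
  set Q := 4 * n ^ 6 with hQdef
  have hQ : 0 < Q := by positivity
  have hQn : 2 * Q ≤ n ^ 300 := by
    have e : n ^ 300 = n ^ 294 * n ^ 6 := by rw [← pow_add]
    have h8 : 8 ≤ n ^ 294 := by
      calc 8 ≤ 3 ^ 2 := by norm_num
        _ ≤ 3 ^ 294 := Nat.pow_le_pow_right (by norm_num) (by norm_num)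
        _ ≤ n ^ 294 := Nat.pow_le_pow_left hn 294
    rw [hQdef, e]
    calc 2 * (4 * n ^ 6) = 8 * n ^ 6 := by ring
      _ ≤ _ := Nat.mul_le_mul_right _ h8
  have hQ' : (0 : ℝ) < Q := by exact_mod_cast hQ
  have hmn : (m : ℝ) ≤ n := by exact_mod_cast (by omega : m ≤ n)
  have hm3 : (m : ℝ) ^ 3 / Q ≤ 1 / (4 * (n : ℝ) ^ 3) := by
    rw [div_le_div_iff₀ hQ' (by positivity)]
    have hp : (m : ℝ) ^ 3 ≤ (n : ℝ) ^ 3 := pow_le_pow_left₀ (Nat.cast_nonneg m) hmn 3
    have : (Q : ℝ) = 4 * (n : ℝ) ^ 6 := by rw [hQdef]; push_cast; ring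
    rw [this]
    calc (m : ℝ) ^ 3 * (4 * (n : ℝ) ^ 3) ≤ (n : ℝ) ^ 3 * (4 * (n : ℝ) ^ 3) :=
          mul_le_mul_of_nonneg_right hp (by positivity)
      _ = 1 * (4 * (n : ℝ) ^ 6) := by ring
  set G : ι → Cx m Q → Cx m Q → Cz m Q → ℝ := fun s X Y Z => H s (mkInst hm X Y Z) with hG
  have hGb : ∀ s X Y Z, 0 ≤ G s X Y Z ∧ G s X Y Z ≤ 1 := fun s X Y Z =>
    (hH s).1 _ (mkInst_valid hm hQn X Y Z)
  have hSA : ∀ X Y Z, |∑ s, a s * G s X Y Z| ≤ A := by
    intro X Y Z
    refine (Finset.abs_sum_le_sum_abs _ _).trans (Finset.sum_le_sum fun s _ => ?_)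
    rw [abs_mul, abs_of_nonneg (hGb s X Y Z).1]
    exact mul_le_of_le_one_right (abs_nonneg _) (hGb s X Y Z).2
  have hgap : ∀ i j k : Fin m, 1 / 2 ≤ ∑ s, |a s| * |dT (G s) i j k| := by
    intro i j k
    have h1 := gap hQ (fun X Y Z => ∑ s, a s * G s X Y Z) θ A
      (fun X Y Z hz => hyes _ (mkInst_valid hm hQn X Y Z) (yes_of_zero h3 hm X Y Z hz))
      (fun X Y Z hz => hno _ (mkInst_valid hm hQn X Y Z)
        (fun hy => hz (zero_of_yes hm X Y Z hy))) hSA i j k
    rw [dT_sum] at h1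
    have h2 : 2 * A * ((m : ℝ) ^ 3 / Q) ≤ 1 / 2 := by
      calc 2 * A * ((m : ℝ) ^ 3 / Q) ≤ 2 * A * (1 / (4 * (n : ℝ) ^ 3)) :=
            mul_le_mul_of_nonneg_left hm3 (by
              have h0 : 0 ≤ A := Finset.sum_nonneg fun _ _ => abs_nonneg _
              positivity)
        _ ≤ 2 * (n : ℝ) ^ 3 * (1 / (4 * (n : ℝ) ^ 3)) :=
            mul_le_mul_of_nonneg_right (by linarith) (by positivity)
        _ = 1 / 2 := by field_simp; norm_num
    have h4 : ∑ s, a s * dT (G s) i j k ≤ ∑ s, |a s| * |dT (G s) i j k| := by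
      refine Finset.sum_le_sum fun s _ => ?_
      rw [← abs_mul]; exact le_abs_self _
    linarith
  have htot : (m : ℝ) ^ 3 / 2 ≤ ∑ s, |a s| * (15 * √((B s : ℝ) ^ 3)) := by
    calc (m : ℝ) ^ 3 / 2 = ∑ _i : Fin m, ∑ _j : Fin m, ∑ _k : Fin m, (1 / 2 : ℝ) := by
          simp only [Finset.sum_const, Finset.card_univ, Fintype.card_fin, nsmul_eq_mul]
          ring
      _ ≤ ∑ i : Fin m, ∑ j : Fin m, ∑ k : Fin m, ∑ s, |a s| * |dT (G s) i j k| :=
          Finset.sum_le_sum fun i _ => Finset.sum_le_sum fun j _ => Finset.sum_le_sum fun k _ =>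
            hgap i j k
      _ = ∑ s, |a s| * ∑ i, ∑ j, ∑ k, |dT (G s) i j k| := by
          have c1 : ∀ i j : Fin m, ∑ k : Fin m, ∑ s, |a s| * |dT (G s) i j k| =
              ∑ s, |a s| * ∑ k : Fin m, |dT (G s) i j k| := fun i j => by
            rw [Finset.sum_comm]
            exact Finset.sum_congr rfl fun s _ => by rw [Finset.mul_sum]
          have c2 : ∀ i : Fin m, ∑ j : Fin m, ∑ s, |a s| * ∑ k : Fin m, |dT (G s) i j k| =
              ∑ s, |a s| * ∑ j : Fin m, ∑ k : Fin m, |dT (G s) i j k| := fun i => by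
            rw [Finset.sum_comm]
            exact Finset.sum_congr rfl fun s _ => by rw [Finset.mul_sum]
          simp only [c1, c2]
          rw [Finset.sum_comm]
          exact Finset.sum_congr rfl fun s _ => by rw [Finset.mul_sum]
      _ ≤ ∑ s, |a s| * (15 * √((B s : ℝ) ^ 3)) := by
          refine Finset.sum_le_sum fun s _ => mul_le_mul_of_nonneg_left ?_ (abs_nonneg _)
          refine (voter_total h3 hm hQ hQn (B s) (H s) (hH s)).trans ?_
          have h5 : 6 * (m : ℝ) ^ 3 / Q ≤ 1 := by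
            have h6 : 6 * (m : ℝ) ^ 3 / Q = 6 * ((m : ℝ) ^ 3 / Q) := by ring
            have hn3 : (27 : ℝ) ≤ (n : ℝ) ^ 3 := by
              have : (3 : ℝ) ≤ n := by exact_mod_cast hn
              calc (27 : ℝ) = 3 ^ 3 := by norm_num
                _ ≤ _ := pow_le_pow_left₀ (by norm_num) this 3
            have h7 : 1 / (4 * (n : ℝ) ^ 3) ≤ 1 / 6 := by
              rw [div_le_div_iff₀ (by positivity) (by norm_num)]
              linarith
            rw [h6]
            linarith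
          have := hB1 s
          linarith
  have hfin : (n : ℝ) ^ 3 ≤ 125 * (m : ℝ) ^ 3 := by
    have : (n : ℝ) ≤ 5 * m := by exact_mod_cast hnm
    calc (n : ℝ) ^ 3 ≤ (5 * m) ^ 3 := pow_le_pow_left₀ hn0.le this 3
      _ = _ := by ring
  have hlast : ∑ s, |a s| * (15 * √((B s : ℝ) ^ 3)) =
      15 * ∑ s, |a s| * (B s : ℝ) ^ (3 / 2 : ℝ) := by
    rw [Finset.mul_sum]
    refine Finset.sum_congr rfl fun s _ => ?_
    rw [rpow_eq_sqrt]; ring
  have hpos : 0 ≤ ∑ s, |a s| * (B s : ℝ) ^ (3 / 2 : ℝ) :=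
    Finset.sum_nonneg fun s _ => mul_nonneg (abs_nonneg _) (Real.rpow_nonneg (Nat.cast_nonneg _) _)
  rw [hlast] at htot
  linarith

end Pool.Agent.Helper8.VS
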