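import Pool.Agent.Helper8.VS.Info

/-!
The triangle inequality `∑ f g h ≤ (∑ f²)^(1/2) (∑ g²)^(1/2) (∑ h²)^(1/2)` and estimates for the
planted distributions `c = a + b` and `c = a + b + 1`.
-/

set_option autoImplicit false
set_option linter.unusedSectionVars false

open Finset
open scoped BigOperators

namespace Pool.Agent.Helper8.VS

/-- Cauchy-Schwarz for triangles. -/
theorem tri_sq {ι : Type} [Fintype ι] (f g h : ι → ι → ℝ) :
    (∑ i, ∑ j, ∑ k, f i j * g j k * h k i) ^ 2 ≤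
      (∑ i, ∑ j, f i j ^ 2) * (∑ j, ∑ k, g j k ^ 2) * ∑ k, ∑ i, h k i ^ 2 := by
  have e1 : ∑ i, ∑ j, ∑ k, f i j * g j k * h k i =
      ∑ p : ι × ι, (∑ j, f p.1 j * g j p.2) * h p.2 p.1 := by
    rw [Fintype.sum_prod_type]
    refine Finset.sum_congr rfl fun i _ => ?_
    rw [Finset.sum_comm]
    refine Finset.sum_congr rfl fun k _ => ?_
    rw [Finset.sum_mul]
  have e2 : ∑ k, ∑ i, h k i ^ 2 = ∑ p : ι × ι, h p.2 p.1 ^ 2 := by
    rw [Fintype.sum_prod_type, Finset.sum_comm]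
  have e3 : ∑ p : ι × ι, (∑ j, f p.1 j * g j p.2) ^ 2 ≤
      (∑ i, ∑ j, f i j ^ 2) * (∑ j, ∑ k, g j k ^ 2) := by
    calc ∑ p : ι × ι, (∑ j, f p.1 j * g j p.2) ^ 2
        ≤ ∑ p : ι × ι, (∑ j, f p.1 j ^ 2) * ∑ j, g j p.2 ^ 2 :=
          Finset.sum_le_sum fun p _ => Finset.sum_mul_sq_le_sq_mul_sq _ _ _
      _ = _ := by
          rw [Fintype.sum_prod_type]
          simp only
          rw [Finset.sum_comm (f := fun j k => g j k ^ 2), Finset.sum_mul_sum]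
  rw [e1, e2]
  refine (Finset.sum_mul_sq_le_sq_mul_sq _ _ _).trans ?_
  exact mul_le_mul_of_nonneg_right e3 (Finset.sum_nonneg fun _ _ => sq_nonneg _)

variable {Q : ℕ}

/-- `a + b` -/
def add0 (a b : Fin Q) : Fin (2 * Q) := ⟨a + b, by omega⟩

/-- `a + b + 1` -/
def add1 (a b : Fin Q) : Fin (2 * Q) := ⟨a + b + 1, by omega⟩

theorem add0_comm (a b : Fin Q) : add0 a b = add0 b a := by
  simp [add0, add_comm]

theorem add1_comm (a b : Fin Q) : add1 a b = add1 b a := by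
  simp [add1, add_comm]

theorem add0_inj (a : Fin Q) : Function.Injective (add0 a) := by
  intro b b' h
  simp only [add0, Fin.mk.injEq] at h
  exact Fin.ext (by omega)

theorem add1_inj (a : Fin Q) : Function.Injective (add1 a) := by
  intro b b' h
  simp only [add1, Fin.mk.injEq] at h
  exact Fin.ext (by omega)

/-- The shift by one changes the average of a bounded function little. -/
theorem shift_b (hQ : 0 < Q) (f : Fin Q → Fin (2 * Q) → ℝ) (K : ℝ) (hf : ∀ a c, |f a c| ≤ K) :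
    |𝔼 a, 𝔼 b, (f a (add0 a b) - f a (add1 a b))| ≤ 2 * K / Q := by
  have hQ' : (0 : ℝ) < Q := by exact_mod_cast hQ
  have : Nonempty (Fin Q) := ⟨⟨0, hQ⟩⟩
  have h1 : ∀ a : Fin Q, |𝔼 b, (f a (add0 a b) - f a (add1 a b))| ≤ 2 * K / Q := by
    intro a
    rw [Fintype.expect_eq_sum_div_card, Fintype.card_fin, abs_div, abs_of_pos hQ']
    refine div_le_div_of_nonneg_right ?_ hQ'.le
    set F : ℕ → ℝ := fun n => if h : n < 2 * Q then f a ⟨n, h⟩ else 0 with hF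
    have e1 : ∑ b : Fin Q, (f a (add0 a b) - f a (add1 a b)) =
        ∑ b ∈ Finset.range Q, (F (a + b) - F (a + (b + 1))) := by
      rw [← Fin.sum_univ_eq_sum_range (fun b => F (a + b) - F (a + (b + 1)))]
      refine Finset.sum_congr rfl fun b _ => ?_
      have h0 : (a : ℕ) + b < 2 * Q := by omega
      have h0' : (a : ℕ) + (b + 1) < 2 * Q := by omega
      simp only [hF, h0, h0', dif_pos]
      rfl
    rw [e1, Finset.sum_range_sub' (fun b => F (a + b))]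
    have h0 : (a : ℕ) + 0 < 2 * Q := by omega
    have h0' : (a : ℕ) + Q < 2 * Q := by omega
    simp only [hF, h0, h0', dif_pos]
    calc |f a ⟨a + 0, h0⟩ - f a ⟨a + Q, h0'⟩| ≤ |f a ⟨a + 0, h0⟩| + |f a ⟨a + Q, h0'⟩| :=
          abs_sub _ _
      _ ≤ K + K := add_le_add (hf _ _) (hf _ _)
      _ = 2 * K := by ring
  refine (Finset.abs_expect_le _ _).trans ?_
  exact Finset.expect_le Finset.univ_nonempty (fun a _ => h1 a)

theorem shift_a (hQ : 0 < Q) (f : Fin Q → Fin (2 * Q) → ℝ) (K : ℝ) (hf : ∀ a c, |f a c| ≤ K) :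
    |𝔼 a, 𝔼 b, (f b (add0 a b) - f b (add1 a b))| ≤ 2 * K / Q := by
  have h := shift_b hQ f K hf
  rw [Finset.expect_comm]
  simp only [add0_comm, add1_comm] at h ⊢
  exact h

/-- Sums along lines. -/
theorem sum_line {α β : Type} [Fintype α] [Fintype β] [DecidableEq β] (s : α → β)
    (hs : Function.Injective s) (φ : β → ℝ) (hφ : ∀ c, 0 ≤ φ c) : ∑ b, φ (s b) ≤ ∑ c, φ c := by
  rw [← Finset.sum_image (f := φ) (s := Finset.univ) (g := s) (fun x _ y _ h => hs h)]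
  exact Finset.sum_le_sum_of_subset_of_nonneg (Finset.subset_univ _) (fun c _ _ => hφ c)

theorem expect_line (hQ : 0 < Q) (s : Fin Q → Fin (2 * Q)) (hs : Function.Injective s)
    (φ : Fin (2 * Q) → ℝ) (hφ : ∀ c, 0 ≤ φ c) : 𝔼 b, φ (s b) ≤ 2 * 𝔼 c, φ c := by
  have hQ' : (0 : ℝ) < Q := by exact_mod_cast hQ
  rw [Fintype.expect_eq_sum_div_card, Fintype.expect_eq_sum_div_card, Fintype.card_fin,
    Fintype.card_fin, Nat.cast_mul, Nat.cast_two, div_le_iff₀ hQ']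
  have h := sum_line s hs φ hφ
  calc ∑ b, φ (s b) ≤ ∑ c, φ c := h
    _ = 2 * ((∑ c, φ c) / (2 * Q)) * Q := by field_simp

/-- Cauchy-Schwarz for the planted distributions. -/
theorem plant_sq (hQ : 0 < Q) (ad : Fin Q → Fin Q → Fin (2 * Q))
    (had : ∀ a, Function.Injective (ad a)) (f1 f2 : Fin Q → ℝ) (f3 : Fin (2 * Q) → ℝ) :
    (𝔼 a, 𝔼 b, f1 a * f2 b * f3 (ad a b)) ^ 2 ≤
      2 * ((𝔼 a, f1 a ^ 2) * (𝔼 b, f2 b ^ 2) * 𝔼 c, f3 c ^ 2) := by
  have hQ' : (0 : ℝ) < Q := by exact_mod_cast hQ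
  have : Nonempty (Fin Q) := ⟨⟨0, hQ⟩⟩
  have e1 : 𝔼 a, 𝔼 b, f1 a * f2 b * f3 (ad a b) =
      𝔼 p : Fin Q × Fin Q, (f1 p.1 * f2 p.2) * f3 (ad p.1 p.2) := by
    rw [← Finset.univ_product_univ, Finset.expect_product]
  rw [e1]
  refine (Finset.expect_mul_sq_le_sq_mul_sq _ _ _).trans ?_
  have e2 : 𝔼 p : Fin Q × Fin Q, (f1 p.1 * f2 p.2) ^ 2 = (𝔼 a, f1 a ^ 2) * 𝔼 b, f2 b ^ 2 := by
    rw [← Finset.univ_product_univ, Finset.expect_product, Finset.expect_mul_expect]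
    simp only [mul_pow]
  have e3 : 𝔼 p : Fin Q × Fin Q, f3 (ad p.1 p.2) ^ 2 ≤ 2 * 𝔼 c, f3 c ^ 2 := by
    rw [← Finset.univ_product_univ, Finset.expect_product]
    refine Finset.expect_le Finset.univ_nonempty (fun a _ => ?_)
    exact expect_line hQ (ad a) (had a) (fun c => f3 c ^ 2) (fun c => sq_nonneg _)
  rw [e2]
  have h0 : 0 ≤ (𝔼 a, f1 a ^ 2) * 𝔼 b, f2 b ^ 2 :=
    mul_nonneg (Finset.expect_nonneg fun _ _ => sq_nonneg _)
      (Finset.expect_nonneg fun _ _ => sq_nonneg _)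
  calc _ ≤ ((𝔼 a, f1 a ^ 2) * 𝔼 b, f2 b ^ 2) * (2 * 𝔼 c, f3 c ^ 2) :=
        mul_le_mul_of_nonneg_left e3 h0
    _ = _ := by ring

end Pool.Agent.Helper8.VS
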